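import Mathlib
import Pool.Agent.H315R3.ETC.Rec
import Pool.Agent.H315R3.ETC.Gen

set_option autoImplicit false

/-! Statements for the project on quaternionic structures with small value groups. -/

namespace Pool.Agent.Y920.ETC

open Pool.Agent.H315R3.ETC

/-! ### quaternionic structures, arbitrary `-1` -/

/-- `V(a) = {1, -a}` -/
def Hr (S : QData) (a : S.G) : Prop := ∀ e : S.G, S.q a e = S.zero → e = 1 ∨ e = S.neg * a

/-- birigid elements -/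
def Bi (S : QData) (a : S.G) : Prop := a ≠ 1 ∧ a ≠ S.neg ∧ Hr S a ∧ Hr S (S.neg * a)

/-- restriction to a subgroup containing `-1` -/
def restrN (S : QData) (K : Subgroup S.G) (hK : S.neg ∈ K) : QData :=
  ⟨K, S.Q, ⟨S.neg, hK⟩, fun a b => S.q a.1 b.1, S.zero⟩

def S_BASIC : Prop := ∀ S : QData, IsQuat S → ∃ B : Subgroup S.G, ∀ a : S.G, a ∈ B ↔ ¬ Bi S a

def S_EXT : Prop := ∀ S : QData, IsQuat S → ∀ (K : Subgroup S.G) (x : S.G) (hneg : S.neg ∈ K),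
  x ∉ K → (∀ y : S.G, y ∈ K ∨ y * x ∈ K) → (∀ a : S.G, a ∉ K → Bi S a) →
    IsQuat (restrN S K hneg) ∧ Iso (ext (restrN S K hneg)) S

/-! ### rigid elements and valuation rings -/

/-- `T ≤ H ≤ F*`, `T` contains the squares, `-1 ∈ H` and `1 + x ∈ T ∪ xT` for all `x ∉ H` -/
structure RigidPair {F : Type} [Field F] (T H : Subgroup Fˣ) : Prop where
  sq : ∀ x : Fˣ, x * x ∈ T
  le : T ≤ H
  neg : (-1 : Fˣ) ∈ H
  rigid : ∀ x : Fˣ, x ∉ H → (∃ t ∈ T, (t : F) = 1 + x) ∨ (∃ t ∈ T, ((x * t : Fˣ) : F) = 1 + x)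

/-- small elements: `x ∉ H` and `1 + x ∈ T` -/
def Sm {F : Type} [Field F] (T H : Subgroup Fˣ) (x : Fˣ) : Prop :=
  x ∉ H ∧ ∃ t ∈ T, (t : F) = 1 + x

/-- no exception -/
structure PCD {F : Type} [Field F] (T H : Subgroup Fˣ) : Prop where
  P : ∀ x y z : Fˣ, Sm T H x → Sm T H y → x * y ∈ H → Sm T H z → Sm T H (x * y * z)
  C : ∀ a x c : Fˣ, Sm T H a → Sm T H x → (c : F) = 1 + x → Sm T H (a * c)
  D : ∀ x a b : Fˣ, Sm T H x → Sm T H a → Sm T H b → (1 : F) + x ≠ a * b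

/-- the units of `O` lie in `H`, and `1 + m ⊆ T` for the maximal ideal `m` of `O` -/
structure Compat {F : Type} [Field F] (T H : Subgroup Fˣ) (O : ValuationSubring F) : Prop where
  units : ∀ u : Fˣ, (u : F) ∈ O → ((u⁻¹ : Fˣ) : F) ∈ O → u ∈ H
  one : ∀ x : F, x ∈ O → x⁻¹ ∉ O → ∃ t ∈ T, (t : F) = 1 + x

def S_WA : Prop := ∀ (F : Type) [Field F] (T H : Subgroup Fˣ), RigidPair T H →
  ∃ (z : Fˣ) (H' : Subgroup Fˣ), (∀ y : Fˣ, y ∈ H' ↔ (y ∈ H ∨ y * z ∈ H)) ∧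
    RigidPair T H' ∧ PCD T H'

def S_WB : Prop := ∀ (F : Type) [Field F] (T H : Subgroup Fˣ), RigidPair T H → PCD T H →
  ∃ O : ValuationSubring F, Compat T H O

def S_COARSE : Prop := ∀ (F : Type) [Field F], (2 : F) ≠ 0 → ∀ (T H : Subgroup Fˣ),
  (∀ x : Fˣ, x ∈ T ↔ ∃ y : Fˣ, x = y * y) → T ≤ H → ∀ O : ValuationSubring F, Compat T H O →
    ∃ O' : ValuationSubring F, O ≤ O' ∧ (2 : F)⁻¹ ∈ O' ∧ Compat T H O'

/-! ### extensions of valuation rings -/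

/-- `2` is a unit of `O` and all elements of `1 + m` are squares -/
def Sqr {F : Type} [Field F] (O : ValuationSubring F) : Prop :=
  (2 : F)⁻¹ ∈ O ∧ (2 : F) ≠ 0 ∧ ∀ x : F, x ∈ O → x⁻¹ ∉ O → IsSquare (1 + x)

/-- quadratic extensions: uniqueness and going up -/
def S_QUAD : Prop := ∀ (F L : Type) [Field F] [Field L] [Algebra F L] [FiniteDimensional F L]
  [IsGalois F L], Module.finrank F L = 2 → ∀ O : ValuationSubring F, Sqr O →
    (∀ O₁ O₂ : ValuationSubring L, O₁.comap (algebraMap F L) = O →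
      O₂.comap (algebraMap F L) = O → O₁ = O₂) ∧
    (∀ O₁ : ValuationSubring L, O₁.comap (algebraMap F L) = O → Sqr O₁)

/-- towers -/
def S_TOWER : Prop := S_QUAD → ∀ (k : ℕ) (F M : Type) [Field F] [Field M] [Algebra F M]
  [FiniteDimensional F M] [IsGalois F M], Module.finrank F M = 2 ^ k →
    ∀ O : ValuationSubring F, Sqr O → ∀ O₁ O₂ : ValuationSubring M,
      O₁.comap (algebraMap F M) = O → O₂.comap (algebraMap F M) = O → O₁ = O₂

/-- nontrivial inertia -/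
def S_INERT : Prop := ∀ (F K : Type) [Field F] [Field K] [Algebra F K] [IsGalois F K],
  ∀ O : ValuationSubring K, (∀ (σ : K ≃ₐ[F] K) (x : K), σ x ∈ O ↔ x ∈ O) →
    ∀ (c : F) (y : K), (2 : F) ≠ 0 → c ≠ 0 → y ^ 2 = algebraMap F K c →
      (∀ f : F, f ≠ 0 → algebraMap F K (c * f ^ 2) ∈ O → algebraMap F K (c * f ^ 2)⁻¹ ∉ O) →
      ∃ σ : K ≃ₐ[F] K, σ ≠ 1 ∧ ∀ x : K, x ∈ O → O.valuation (σ x - x) < 1

end Pool.Agent.Y920.ETC
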