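import Mathlib
import Pool.Agent.Y920.ETC.Stm

set_option autoImplicit false

/-! Counting dependent quaternions. -/

namespace Pool.Agent.Y920.ETC

open Pool.Agent.H315R3.ETC Finset

section count

variable {S : QData} (h : IsQuat S) [Fintype S.G] [DecidableEq S.G] [DecidableEq S.Q]

/-- the value group of `a` as a finite set -/
def A (S : QData) [Fintype S.G] [DecidableEq S.Q] (a : S.G) : Finset S.G :=
  univ.filter fun b => S.q a b = S.zero

lemma mem_A {a b : S.G} : b ∈ A S a ↔ S.q a b = S.zero := by simp [A]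

include h in
lemma q1 (b : S.G) : S.q 1 b = S.zero := q_one' h b

include h in
lemma q_comm_one {a b : S.G} {t : S.Q} (ht : t ≠ S.zero) (e : S.q a b = t) : a ≠ 1 ∧ b ≠ 1 := by
  constructor
  · rintro rfl; exact ht (e.symm.trans (q1 h b))
  · rintro rfl; exact ht (e.symm.trans (q_one h a))

variable {N : ℕ} (hN : ∀ a : S.G, a ≠ 1 → #(A S a) ≤ N)

include h hN in
/-- the number of pairs with a given nonzero value -/
lemma card_E {t : S.Q} (ht : t ≠ S.zero) :
    #((univ : Finset (S.G × S.G)).filter fun p => S.q p.1 p.2 = t) ≤ N ^ 3 := by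
  by_cases hne : ∃ u y, S.q u y = t
  swap
  · have : ((univ : Finset (S.G × S.G)).filter fun p => S.q p.1 p.2 = t) = ∅ := by
      rw [Finset.filter_eq_empty_iff]
      intro p _ hp
      exact hne ⟨_, _, hp⟩
    rw [this]; simp
  obtain ⟨u, y0, hu⟩ := hne
  have hsub : ((univ : Finset (S.G × S.G)).filter fun p => S.q p.1 p.2 = t) ⊆
      (A S u).biUnion fun g => (A S (g * y0)).biUnion fun g' =>
        (A S (g' * u)).image fun g'' => (g' * u, g'' * (g * y0)) := by
    rintro ⟨x, y⟩ hp
    have hp : S.q x y = t := by simpa using hp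
    obtain ⟨z, h1, h2⟩ := h.qs4 x y u y0 (hp.trans hu.symm)
    have hxz : S.q x z = t := h1.symm.trans hp
    have huz : S.q u z = t := h2.symm.trans hu
    have e1 : z * y0 * y0 = z := mul_cancel h z y0
    have e2 : x * u * u = x := mul_cancel h x u
    have e3 : y * z * z = y := mul_cancel h y z
    simp only [Finset.mem_biUnion, Finset.mem_image]
    refine ⟨z * y0, ?_, x * u, ?_, y * z, ?_, ?_⟩
    · rw [mem_A, ← h.qs3, huz, hu]
    · rw [e1, mem_A, ← h.qs3, h.qs2 z x, h.qs2 z u, hxz, huz]
    · rw [e2, mem_A, ← h.qs3, hp, hxz]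
    · rw [e1, e2, e3]
  refine (Finset.card_le_card hsub).trans ?_
  have hu1 := q_comm_one h ht hu
  calc _ ≤ #(A S u) * (N * N) := by
        refine Finset.card_biUnion_le_card_mul _ _ _ fun g hg => ?_
        rw [mem_A] at hg
        have e1 : S.q u (g * y0) = t := by rw [q_shift h _ hg]; exact hu
        have e2 := q_comm_one h ht e1
        refine (Finset.card_biUnion_le_card_mul _ _ N fun g' hg' => ?_).trans ?_
        · rw [mem_A] at hg'
          have e3 : S.q (g * y0) (g' * u) = t := by
            rw [q_shift h _ hg', h.qs2]; exact e1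
          exact Finset.card_image_le.trans (hN _ (q_comm_one h ht e3).2)
        · exact Nat.mul_le_mul_right _ (hN _ e2.2)
    _ ≤ N * (N * N) := Nat.mul_le_mul_right _ (hN _ hu1.1)
    _ = N ^ 3 := by ring

open scoped Classical in
/-- the bad quaternions -/
noncomputable def bad (S : QData) [Fintype S.G] [DecidableEq S.Q] : Finset S.Q :=
  ((univ : Finset (S.G × S.G)).image fun p => S.q p.1 p.2).filter fun t =>
    t ≠ S.zero ∧ ¬ Indep S t

include h hN in
/-- the number of bad quaternions -/
lemma card_bad : 4 * #(bad S) ≤ Fintype.card S.G * N ^ 3 := by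
  classical
  set X := ((univ : Finset S.G).filter (· ≠ 1)).sigma fun d =>
    ((A S d).filter (· ≠ 1)).sigma fun e => (A S d) ×ˢ (A S e) with hX
  have hXc : #X ≤ Fintype.card S.G * N ^ 3 := by
    rw [hX, Finset.card_sigma]
    have h1 : ∀ d ∈ ((univ : Finset S.G).filter (· ≠ 1)),
        #(((A S d).filter (· ≠ 1)).sigma fun e => (A S d) ×ˢ (A S e)) ≤ N ^ 3 := by
      intro d hd
      have hd1 : d ≠ 1 := (Finset.mem_filter.1 hd).2
      rw [Finset.card_sigma]
      refine (Finset.sum_le_card_nsmul _ _ (N * N) ?_).trans ?_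
      · intro e he
        rw [Finset.card_product]
        exact Nat.mul_le_mul (hN d hd1) (hN e (Finset.mem_filter.1 he).2)
      · rw [smul_eq_mul]
        calc _ ≤ N * (N * N) := Nat.mul_le_mul_right _
              ((Finset.card_le_card (Finset.filter_subset _ _)).trans (hN d hd1))
          _ = N ^ 3 := by ring
    refine (Finset.sum_le_card_nsmul _ _ _ h1).trans ?_
    rw [smul_eq_mul]
    exact Nat.mul_le_mul_right _ (Finset.card_le_univ _)
  refine le_trans ?_ hXc
  let f : ((_ : S.G) × (_ : S.G) × (S.G × S.G)) → S.Q := fun p => S.q p.2.2.1 p.2.2.2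
  have key : ∀ t ∈ bad S, 4 ≤ #(X.filter fun p => f p = t) := by
    intro t ht
    rw [bad, Finset.mem_filter] at ht
    obtain ⟨-, ht0, hI⟩ := ht
    unfold Indep at hI
    push Not at hI
    obtain ⟨u, v, huv, ⟨a, ha⟩, ⟨b, hb⟩, d, hud, hvd, hd1⟩ := hI
    obtain ⟨y, h1, h2⟩ := h.qs4 u a v b (ha.trans hb.symm)
    have huy : S.q u y = t := h1.symm.trans ha
    have hvy : S.q v y = t := h2.symm.trans hb
    have he1 : u * v ≠ 1 := fun e => huv (eq_of_mul h _ _ e)
    have hdu : S.q d u = S.zero := by rw [h.qs2]; exact hud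
    have hdv : S.q d v = S.zero := by rw [h.qs2]; exact hvd
    have hde : S.q d (u * v) = S.zero := p_mul h hdu hdv
    have hey : S.q (u * v) y = S.zero := by
      rw [h.qs2, ← h.qs3, h.qs2 y u, h.qs2 y v, huy, hvy]
    have hed : S.q (u * v) d = S.zero := by rw [h.qs2]; exact hde
    have heyd : S.q (u * v) (d * y) = S.zero := p_mul h hed hey
    have huyd : S.q u (d * y) = t := by rw [q_shift h _ hud]; exact huy
    have hvyd : S.q v (d * y) = t := by rw [q_shift h _ hvd]; exact hvy
    have hyne : y ≠ d * y := by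
      intro e
      apply hd1
      have := mul_cancel h d y
      rw [← e, h.exp2] at this
      exact this.symm
    let g : S.G × S.G → ((_ : S.G) × (_ : S.G) × (S.G × S.G)) := fun p => ⟨d, u * v, p⟩
    have hg : Function.Injective g := by
      intro p p' hpp
      simp only [g, Sigma.mk.injEq, heq_eq_eq, true_and] at hpp
      exact hpp
    have hc : #((({u, v} : Finset S.G) ×ˢ ({y, d * y} : Finset S.G)).image g) = 4 := by
      rw [Finset.card_image_of_injective _ hg, Finset.card_product, Finset.card_pair huv,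
        Finset.card_pair hyne]
    rw [← hc]
    apply Finset.card_le_card
    intro p hp
    rw [Finset.mem_image] at hp
    obtain ⟨⟨r, s⟩, hrs, rfl⟩ := hp
    rw [Finset.mem_product, Finset.mem_insert, Finset.mem_singleton, Finset.mem_insert,
      Finset.mem_singleton] at hrs
    rw [Finset.mem_filter, hX, Finset.mem_sigma, Finset.mem_sigma, Finset.mem_product]
    obtain ⟨hr, hs⟩ := hrs
    refine ⟨⟨?_, ?_, ?_, ?_⟩, ?_⟩
    · simpa using hd1
    · rw [Finset.mem_filter, mem_A]
      exact ⟨hde, he1⟩
    · rw [mem_A]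
      rcases hr with hr | hr
      · show S.q d r = S.zero
        simp only at hr
        rw [hr]; exact hdu
      · show S.q d r = S.zero
        simp only at hr
        rw [hr]; exact hdv
    · rw [mem_A]
      rcases hs with hs | hs
      · show S.q (u * v) s = S.zero
        simp only at hs
        rw [hs]; exact hey
      · show S.q (u * v) s = S.zero
        simp only at hs
        rw [hs]; exact heyd
    · show S.q r s = t
      simp only at hr hs
      rcases hr with rfl | rfl <;> rcases hs with rfl | rfl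
      · exact huy
      · exact huyd
      · exact hvy
      · exact hvyd
  calc 4 * #(bad S) = ∑ t ∈ bad S, 4 := by rw [Finset.sum_const, smul_eq_mul, mul_comm]
    _ ≤ ∑ t ∈ bad S, #(X.filter fun p => f p = t) := Finset.sum_le_sum key
    _ = #(X.filter fun p => f p ∈ bad S) := Finset.sum_card_fiberwise_eq_card_filter _ _ _
    _ ≤ #X := Finset.card_le_card (Finset.filter_subset _ _)

include h hN in
/-- pairs with value zero -/
lemma card_Z : #((univ : Finset (S.G × S.G)).filter fun p => S.q p.1 p.2 = S.zero) ≤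
    Fintype.card S.G * (N + 1) := by
  have hsub : ((univ : Finset (S.G × S.G)).filter fun p => S.q p.1 p.2 = S.zero) ⊆
      ((univ : Finset S.G).image fun y => ((1 : S.G), y)) ∪
        ((univ : Finset S.G).filter (· ≠ 1)).biUnion fun x => (A S x).image fun y => (x, y) := by
    rintro ⟨x, y⟩ hp
    have hp : S.q x y = S.zero := by simpa using hp
    rw [Finset.mem_union]
    by_cases hx : x = 1
    · left; subst hx; exact Finset.mem_image_of_mem _ (Finset.mem_univ _)
    · right
      rw [Finset.mem_biUnion]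
      exact ⟨x, by simpa using hx, Finset.mem_image_of_mem _ (mem_A.2 hp)⟩
  refine (Finset.card_le_card hsub).trans ((Finset.card_union_le _ _).trans ?_)
  have h1 : #((univ : Finset S.G).image fun y => ((1 : S.G), y)) ≤ Fintype.card S.G :=
    Finset.card_image_le
  have h2 : #(((univ : Finset S.G).filter (· ≠ 1)).biUnion
      fun x => (A S x).image fun y => (x, y)) ≤ Fintype.card S.G * N := by
    refine (Finset.card_biUnion_le_card_mul _ _ N fun x hx => ?_).trans
      (Nat.mul_le_mul_right _ (Finset.card_le_univ _))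
    exact Finset.card_image_le.trans (hN x (Finset.mem_filter.1 hx).2)
  calc _ ≤ Fintype.card S.G + Fintype.card S.G * N := Nat.add_le_add h1 h2
    _ = _ := by ring

include h hN in
/-- pairs with a loop value -/
lemma card_L : #((univ : Finset (S.G × S.G)).filter fun p => S.q p.1 p.2 ≠ S.zero ∧
    ∃ a, S.q a a = S.q p.1 p.2) ≤ Fintype.card S.G * N ^ 2 := by
  have hsub : ((univ : Finset (S.G × S.G)).filter fun p => S.q p.1 p.2 ≠ S.zero ∧
      ∃ a, S.q a a = S.q p.1 p.2) ⊆
        ((univ : Finset S.G).filter (· ≠ 1)).biUnion fun z =>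
          ((A S z).filter fun g => g * S.neg ≠ 1).biUnion fun g =>
            (A S (g * S.neg)).image fun g' => (g * S.neg, g' * z) := by
    rintro ⟨x, y⟩ hp
    obtain ⟨h0, a, ha⟩ : S.q x y ≠ S.zero ∧ ∃ a, S.q a a = S.q x y := by simpa using hp
    have ha' : S.q S.neg a = S.q x y := by
      rw [← ha, h.qs2 S.neg a, h.qs3]
      exact h.qs1 a
    obtain ⟨z, h1, h2⟩ := h.qs4 S.neg a x y ha'
    have hnz : S.q S.neg z = S.q x y := h1.symm.trans ha'
    have hxz : S.q x z = S.q x y := h2.symm
    have e1 : x * S.neg * S.neg = x := mul_cancel h x _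
    have e2 : y * z * z = y := mul_cancel h y z
    simp only [Finset.mem_biUnion, Finset.mem_image, Finset.mem_filter, Finset.mem_univ, true_and]
    refine ⟨z, (q_comm_one h h0 hnz).2, x * S.neg, ⟨?_, ?_⟩, y * z, ?_, ?_⟩
    · rw [mem_A, ← h.qs3, h.qs2 z x, h.qs2 z S.neg, hxz, hnz]
    · rw [e1]; exact (q_comm_one h h0 rfl).1
    · rw [e1, mem_A, ← h.qs3, hxz]
    · rw [e1, e2]
  refine (Finset.card_le_card hsub).trans ?_
  refine (Finset.card_biUnion_le_card_mul _ _ (N ^ 2) fun z hz => ?_).trans
    (Nat.mul_le_mul_right _ (Finset.card_le_univ _))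
  refine (Finset.card_biUnion_le_card_mul _ _ N fun g hg => ?_).trans ?_
  · exact Finset.card_image_le.trans (hN _ (Finset.mem_filter.1 hg).2)
  · rw [pow_two]
    exact Nat.mul_le_mul_right _ ((Finset.card_le_card (Finset.filter_subset _ _)).trans
      (hN z (Finset.mem_filter.1 hz).2))

open scoped Classical in
/-- the elements which are not half rigid -/
noncomputable def NR (S : QData) [Fintype S.G] : Finset S.G := univ.filter fun a => ¬ Hr S a

include h in
/-- pairs of elements which are not half rigid have bad values -/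
lemma pair_bad {x y : S.G} (hx : ¬ Hr S x) (hy : ¬ Hr S y) (h0 : S.q x y ≠ S.zero)
    (hl : ¬ ∃ a, S.q a a = S.q x y) : S.q x y ∈ bad S := by
  classical
  rw [bad, Finset.mem_filter]
  refine ⟨Finset.mem_image.2 ⟨(x, y), Finset.mem_univ _, rfl⟩, h0, fun hI => ?_⟩
  push Not at hl
  obtain ⟨w, hw⟩ := rigid_slots h hl hI
  have hxw : x = w := by
    by_contra hc
    exact hx (hw x hc ⟨y, rfl⟩)
  have hyw : y = w := by
    by_contra hc
    exact hy (hw y hc ⟨x, h.qs2 y x⟩)
  rw [hxw, hyw] at hl
  exact hl w rfl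

include h hN in
/-- the number of elements which are not half rigid -/
theorem card_NR : 4 * #(NR S) ^ 2 ≤ Fintype.card S.G * (N ^ 6 + 4 * N ^ 2 + 4 * N + 4) := by
  classical
  have hsub : (NR S) ×ˢ (NR S) ⊆
      (((univ : Finset (S.G × S.G)).filter fun p => S.q p.1 p.2 = S.zero) ∪
      ((univ : Finset (S.G × S.G)).filter fun p => S.q p.1 p.2 ≠ S.zero ∧
        ∃ a, S.q a a = S.q p.1 p.2)) ∪
      ((bad S).biUnion fun t => (univ : Finset (S.G × S.G)).filter fun p => S.q p.1 p.2 = t) := by
    rintro ⟨x, y⟩ hp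
    rw [Finset.mem_product] at hp
    have hx : ¬ Hr S x := by simpa [NR] using hp.1
    have hy : ¬ Hr S y := by simpa [NR] using hp.2
    by_cases h0 : S.q x y = S.zero
    · exact Finset.mem_union_left _ (Finset.mem_union_left _ (by simpa using h0))
    by_cases hl : ∃ a, S.q a a = S.q x y
    · refine Finset.mem_union_left _ (Finset.mem_union_right _ ?_)
      rw [Finset.mem_filter]
      exact ⟨Finset.mem_univ _, h0, hl⟩
    · refine Finset.mem_union_right _ (Finset.mem_biUnion.2 ⟨S.q x y, pair_bad h hx hy h0 hl, ?_⟩)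
      rw [Finset.mem_filter]
      exact ⟨Finset.mem_univ _, rfl⟩
  have h1 := (Finset.card_le_card hsub).trans ((Finset.card_union_le _ _).trans
    (Nat.add_le_add_right (Finset.card_union_le _ _) _))
  rw [Finset.card_product] at h1
  have h2 := card_Z h hN
  have h3 := card_L h hN
  have h4 : #((bad S).biUnion fun t => (univ : Finset (S.G × S.G)).filter
      fun p => S.q p.1 p.2 = t) ≤ #(bad S) * N ^ 3 := by
    refine Finset.card_biUnion_le_card_mul _ _ _ fun t ht => card_E h hN ?_
    rw [bad, Finset.mem_filter] at ht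
    exact ht.2.1
  have h5 := card_bad h hN
  have h6 : #(NR S) * #(NR S) ≤ Fintype.card S.G * (N + 1) + Fintype.card S.G * N ^ 2 +
      #(bad S) * N ^ 3 := h1.trans (Nat.add_le_add (Nat.add_le_add h2 h3) h4)
  calc 4 * #(NR S) ^ 2 = 4 * (#(NR S) * #(NR S)) := by ring
    _ ≤ 4 * (Fintype.card S.G * (N + 1) + Fintype.card S.G * N ^ 2 + #(bad S) * N ^ 3) :=
        Nat.mul_le_mul_left _ h6
    _ = Fintype.card S.G * (4 * N ^ 2 + 4 * N + 4) + (4 * #(bad S)) * N ^ 3 := by ring
    _ ≤ Fintype.card S.G * (4 * N ^ 2 + 4 * N + 4) + (Fintype.card S.G * N ^ 3) * N ^ 3 :=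
        Nat.add_le_add_left (Nat.mul_le_mul_right _ h5) _
    _ = _ := by ring

end count

end Pool.Agent.Y920.ETC
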