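import Mathlib
import Pool.Agent.Y920.ETC.Count

set_option autoImplicit false

/-! Structures with small value groups have birigid elements. -/

namespace Pool.Agent.Y920.ETC

open Pool.Agent.H315R3.ETC Finset

variable {S : QData} (h : IsQuat S)

include h in
lemma isP : IsPGroup 2 S.G := fun g => ⟨1, by rw [pow_one, pow_two]; exact h.exp2 g⟩

include h in
lemma card_pow [Finite S.G] : ∃ n, Nat.card S.G = 2 ^ n := IsPGroup.iff_card.1 (isP h)

include h in
lemma card_pow_sub [Finite S.G] (K : Subgroup S.G) : ∃ n, Nat.card K = 2 ^ n :=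
  IsPGroup.iff_card.1 ((isP h).to_subgroup K)

/-- the size of the value group of `a` -/
noncomputable def vs (S : QData) (a : S.G) : ℕ := {b : S.G | S.q a b = S.zero}.ncard

include h in
lemma vs_pow [Finite S.G] (a : S.G) : ∃ n, vs S a = 2 ^ n := by
  obtain ⟨n, hn⟩ := card_pow_sub h (D h a)
  exact ⟨n, hn⟩

include h in
lemma neg_sq : S.neg * S.neg = 1 := h.exp2 _

include h in
lemma neg_neg_mul (a : S.G) : S.neg * (S.neg * a) = a := by
  rw [← mul_assoc, h.exp2, one_mul]

include h in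
/-- if `V(a)` has at most three elements and `a ≠ 1, -1` then `V(a) = {1,-a}` -/
lemma hr_of_small [Finite S.G] {a : S.G} (hs : vs S a ≤ 3) (ha : a ≠ S.neg) : Hr S a := by
  intro e he
  by_contra hcon
  push Not at hcon
  have h1 : S.neg * a ≠ 1 := fun e' => ha (eq_of_mul h _ _ e').symm
  have h2 : S.q a (S.neg * a) = S.zero := h.qs1 a
  have h3 : S.q a (e * (S.neg * a)) = S.zero := p_mul h he h2
  have h4 : e * (S.neg * a) ≠ 1 := fun e' => hcon.2 (eq_of_mul h _ _ e')
  have h5 : e * (S.neg * a) ≠ e := by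
    intro e'
    exact h1 (by rwa [mul_eq_left] at e')
  have h6 : e * (S.neg * a) ≠ S.neg * a := by
    intro e'
    exact hcon.1 (by rwa [mul_eq_right] at e')
  have hsub : (({1, S.neg * a, e, e * (S.neg * a)} : Set S.G)) ⊆ {b : S.G | S.q a b = S.zero} := by
    intro b hb
    rcases hb with rfl | rfl | rfl | rfl
    · exact q_one h a
    · exact h2
    · exact he
    · exact h3
  have hc : (({1, S.neg * a, e, e * (S.neg * a)} : Set S.G)).ncard = 4 := by
    classical
    have : (({1, S.neg * a, e, e * (S.neg * a)} : Set S.G)) =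
        (({1, S.neg * a, e, e * (S.neg * a)} : Finset S.G) : Set S.G) := by simp
    rw [this, Set.ncard_coe_finset]
    rw [Finset.card_insert_of_notMem, Finset.card_insert_of_notMem, Finset.card_insert_of_notMem,
      Finset.card_singleton]
    · simpa using h5.symm
    · simp only [Finset.mem_insert, Finset.mem_singleton, not_or]
      exact ⟨hcon.2.symm, h6.symm⟩
    · simp only [Finset.mem_insert, Finset.mem_singleton, not_or]
      exact ⟨h1.symm, hcon.1.symm, h4.symm⟩
  have := Set.ncard_le_ncard hsub (Set.toFinite _)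
  rw [hc] at this
  have h7 : vs S a = {b : S.G | S.q a b = S.zero}.ncard := rfl
  omega

include h in
/-- an element outside `{1,-1}` -/
lemma exists_ne [Finite S.G] (h4 : 4 ≤ Nat.card S.G) : ∃ a : S.G, a ≠ 1 ∧ a ≠ S.neg := by
  classical
  by_contra hcon
  push Not at hcon
  have hsub : (Set.univ : Set S.G) ⊆ (({1, S.neg} : Finset S.G) : Set S.G) := by
    intro a _
    by_cases ha : a = 1
    · simp [ha]
    · simp [hcon a ha]
  have h1 := Set.ncard_le_ncard hsub (Set.toFinite _)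
  rw [Set.ncard_univ, Set.ncard_coe_finset] at h1
  have h2 : #({1, S.neg} : Finset S.G) ≤ 2 := Finset.card_le_two
  omega

include h in
/-- small value groups give birigid elements -/
theorem exists_bi [Finite S.G] (h4 : 4 ≤ Nat.card S.G)
    (hs : ∀ a : S.G, a ≠ 1 → vs S a ^ 6 < Nat.card S.G) : ∃ a : S.G, Bi S a := by
  classical
  have hf : Fintype S.G := Fintype.ofFinite _
  obtain ⟨b0, hb0, hb1⟩ := exists_ne h h4
  by_cases hsm : ∀ a : S.G, a ≠ 1 → vs S a ≤ 3
  · refine ⟨b0, hb0, hb1, hr_of_small h (hsm _ hb0) hb1, hr_of_small h (hsm _ ?_) ?_⟩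
    · intro e
      exact hb1 (eq_of_mul h _ _ e).symm
    · intro e
      exact hb0 (by rwa [mul_eq_left] at e)
  have hvs : ∀ a, vs S a = #(A S a) := by
    intro a
    have : {b : S.G | S.q a b = S.zero} = ((A S a : Finset S.G) : Set S.G) := by
      ext b; simp [A]
    rw [vs, this, Set.ncard_coe_finset]
  have hne : ((univ : Finset S.G).filter (· ≠ 1)).Nonempty := ⟨b0, by simpa using hb0⟩
  obtain ⟨a0, ha0, hmax⟩ := Finset.exists_max_image _ (fun a => vs S a) hne
  have ha01 : a0 ≠ 1 := (Finset.mem_filter.1 ha0).2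
  obtain ⟨k, hk⟩ := vs_pow h a0
  obtain ⟨n, hn⟩ := card_pow h
  set N := vs S a0 with hNdef
  have hNmax : ∀ a : S.G, a ≠ 1 → vs S a ≤ N := fun a ha => hmax a (by simpa using ha)
  have hN4 : 4 ≤ N := by
    push Not at hsm
    obtain ⟨a, ha, ha3⟩ := hsm
    exact le_trans ha3 (hNmax a ha)
  have hN : ∀ a : S.G, a ≠ 1 → #(A S a) ≤ N := fun a ha => by rw [← hvs]; exact hNmax a ha
  have h2N : 2 * N ^ 6 ≤ Nat.card S.G := by
    have h1 := hs a0 ha01
    rw [← hNdef, hk, hn, ← pow_mul] at h1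
    have h2 : k * 6 < n := (Nat.pow_lt_pow_iff_right (by norm_num)).1 h1
    rw [hk, hn, ← pow_mul, mul_comm, ← pow_succ]
    exact Nat.pow_le_pow_right (by norm_num) h2
  have hNR := card_NR h hN
  rw [← Nat.card_eq_fintype_card] at hNR
  have hlt : N ^ 6 + 4 * N ^ 2 + 4 * N + 4 < 2 * N ^ 6 := by
    have h1 : 4 * N ^ 2 + 4 * N + 4 < N ^ 6 := by
      have h2 : N ^ 6 = N ^ 2 * N ^ 4 := by ring
      have h3 : 4 ^ 4 ≤ N ^ 4 := Nat.pow_le_pow_left hN4 4
      have h4' : N ^ 2 * 4 ^ 4 ≤ N ^ 6 := by rw [h2]; exact Nat.mul_le_mul_left _ h3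
      nlinarith
    omega
  have h2NR : 2 * #(NR S) < Nat.card S.G := by
    by_contra hcon
    push Not at hcon
    have h1 : Nat.card S.G ^ 2 ≤ (2 * #(NR S)) ^ 2 := Nat.pow_le_pow_left hcon 2
    have h2 : (2 * #(NR S)) ^ 2 = 4 * #(NR S) ^ 2 := by ring
    have h3 : Nat.card S.G * (N ^ 6 + 4 * N ^ 2 + 4 * N + 4) < Nat.card S.G * Nat.card S.G :=
      Nat.mul_lt_mul_of_pos_left (lt_of_lt_of_le hlt h2N) (by omega)
    have h5 : Nat.card S.G ^ 2 = Nat.card S.G * Nat.card S.G := by ring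
    omega
  by_contra hcon
  push Not at hcon
  have h1NR : (1 : S.G) ∈ NR S := by
    rw [NR, Finset.mem_filter]
    refine ⟨Finset.mem_univ _, fun hr => ?_⟩
    rcases hr b0 (q_one' h b0) with h5 | h5
    · exact hb0 h5
    · exact hb1 (by rw [h5, mul_one])
  have hcov : (univ : Finset S.G) ⊆ NR S ∪ (NR S).image (S.neg * ·) := by
    intro a _
    rw [Finset.mem_union, Finset.mem_image]
    by_contra hc
    push Not at hc
    obtain ⟨hc1, hc2⟩ := hc
    have ha1 : a ≠ 1 := by rintro rfl; exact hc1 h1NR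
    have ha2 : a ≠ S.neg := by
      rintro rfl
      exact hc2 1 h1NR (mul_one _)
    refine hcon a ⟨ha1, ha2, ?_, ?_⟩
    · by_contra hc3
      exact hc1 (by rw [NR, Finset.mem_filter]; exact ⟨Finset.mem_univ _, hc3⟩)
    · by_contra hc3
      exact hc2 (S.neg * a) (by rw [NR, Finset.mem_filter]; exact ⟨Finset.mem_univ _, hc3⟩)
        (neg_neg_mul h a)
  have h5 := (Finset.card_le_card hcov).trans ((Finset.card_union_le _ _).trans
    (Nat.add_le_add_left Finset.card_image_le _))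
  rw [Finset.card_univ, ← Nat.card_eq_fintype_card] at h5
  omega

include h in
/-- subgroups containing all elements which are not birigid carry a structure -/
lemma isQuat_restrN (K : Subgroup S.G) (hneg : S.neg ∈ K) (hK : ∀ a : S.G, a ∉ K → Bi S a) :
    IsQuat (restrN S K hneg) ∧ ∀ a b : S.G, a ∈ K → a ≠ 1 → S.q a b = S.zero → b ∈ K := by
  have hin : ∀ a b : S.G, a ∈ K → a ≠ 1 → S.q a b = S.zero → b ∈ K := by
    intro a b ha ha1 hab
    by_contra hb
    rcases (hK b hb).2.2.1 a (by rw [h.qs2]; exact hab) with h1 | h1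
    · exact ha1 h1
    · apply hb
      have : S.neg * a = b := by rw [h1, neg_neg_mul h]
      rw [← this]
      exact K.mul_mem hneg ha
  refine ⟨⟨?_, ?_, ?_, ?_, ?_⟩, hin⟩
  · intro a
    exact Subtype.ext (h.exp2 a.1)
  · intro a
    exact h.qs1 _
  · intro a b
    exact h.qs2 _ _
  · intro a b c
    exact h.qs3 _ _ _
  · intro (a : K) (b : K) (c : K) (d : K) e
    by_cases ha1 : (a : S.G) = 1
    · refine ⟨1, ?_, ?_⟩
      · show S.q a.1 b.1 = S.q a.1 1
        rw [q_one h, ha1, h.qs2, q_one h]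
      · show S.q c.1 d.1 = S.q c.1 1
        have e' : S.q a.1 b.1 = S.q c.1 d.1 := e
        rw [← e', q_one h, ha1, h.qs2, q_one h]
    · obtain ⟨y, h1, h3⟩ := h.qs4 _ _ _ _ e
      have h4 := hin _ _ a.2 ha1 ((h.qs3 _ _ _).1 h1)
      have hy : y ∈ K := by
        have := K.mul_mem b.2 h4
        rwa [← mul_assoc, h.exp2, one_mul] at this
      exact ⟨⟨y, hy⟩, h1, h3⟩

include h in
lemma vs_restrN (K : Subgroup S.G) (hneg : S.neg ∈ K) (hK : ∀ a : S.G, a ∉ K → Bi S a)
    (a : K) (ha : a ≠ 1) : vs (restrN S K hneg) a = vs S a.1 := by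
  have hin := (isQuat_restrN h K hneg hK).2
  have ha' : (a : S.G) ≠ 1 := fun e => ha (Subtype.ext e)
  have : {b : S.G | S.q a.1 b = S.zero} =
      Subtype.val '' {b : K | (restrN S K hneg).q a b = (restrN S K hneg).zero} := by
    ext b
    constructor
    · intro hb
      exact ⟨⟨b, hin _ _ a.2 ha' hb⟩, hb, rfl⟩
    · rintro ⟨b', hb', rfl⟩
      exact hb'
  rw [vs, vs, this, Set.ncard_image_of_injective _ Subtype.val_injective]
  rfl

include h in
/-- the basic part is small -/
theorem card_basic [Finite S.G] (B : Subgroup S.G) (hB : ∀ a : S.G, a ∈ B ↔ ¬ Bi S a) {N : ℕ}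
    (hN : ∀ a : S.G, a ≠ 1 → vs S a ≤ N) : Nat.card B ≤ max 2 (N ^ 6) := by
  have hneg : S.neg ∈ B := (hB _).2 fun hb => hb.2.1 rfl
  have hK : ∀ a : S.G, a ∉ B → Bi S a := fun a ha => by
    by_contra hc
    exact ha ((hB a).2 hc)
  obtain ⟨hq, hin⟩ := isQuat_restrN h B hneg hK
  by_contra hcon
  push Not at hcon
  rw [max_lt_iff] at hcon
  obtain ⟨hc2, hcN⟩ := hcon
  obtain ⟨n, hn⟩ := card_pow_sub h B
  have h4 : 4 ≤ Nat.card B := by
    rw [hn] at hc2 ⊢
    have h1 : 1 < n := by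
      by_contra hc
      push Not at hc
      have : 2 ^ n ≤ 2 ^ 1 := Nat.pow_le_pow_right (by norm_num) hc
      omega
    calc 4 = 2 ^ 2 := by norm_num
      _ ≤ 2 ^ n := Nat.pow_le_pow_right (by norm_num) h1
  haveI : Finite (restrN S B hneg).G := inferInstanceAs (Finite B)
  obtain ⟨b, hb⟩ := exists_bi (S := restrN S B hneg) hq (by exact h4) (by
    intro (a : B) ha
    have h5 := vs_restrN h B hneg hK a ha
    have h6 : (a : S.G) ≠ 1 := fun e => ha (Subtype.ext e)
    calc vs (restrN S B hneg) a ^ 6 = vs S a.1 ^ 6 := by rw [h5]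
      _ ≤ N ^ 6 := Nat.pow_le_pow_left (hN _ h6) 6
      _ < Nat.card B := hcN)
  -- `b` is birigid in `S`
  obtain ⟨b1, b2, b3, b4⟩ := hb
  have hbB : (b : B).1 ∈ B := (b : B).2
  refine ((hB _).1 hbB) ⟨fun e => b1 (Subtype.ext e), fun e => b2 (Subtype.ext e), ?_, ?_⟩
  · intro e he
    have heB : e ∈ B := hin _ _ hbB (fun e => b1 (Subtype.ext e)) he
    rcases b3 ⟨e, heB⟩ he with h5 | h5
    · exact Or.inl (congrArg Subtype.val h5)
    · exact Or.inr (congrArg Subtype.val h5)
  · intro e he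
    have hnb : S.neg * (b : B).1 ∈ B := B.mul_mem hneg hbB
    have heB : e ∈ B := hin _ _ hnb
      (fun e => b2 (Subtype.ext (eq_of_mul h _ _ e).symm)) he
    rcases b4 ⟨e, heB⟩ he with h5 | h5
    · exact Or.inl (congrArg Subtype.val h5)
    · exact Or.inr (congrArg Subtype.val h5)

end Pool.Agent.Y920.ETC
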