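import Mathlib
import Pool.Agent.Y920.ETC.Stm
import Pool.Agent.TH188.ET.Struct

set_option autoImplicit false

/-! Statements on fields. -/

namespace Pool.Agent.Y920.ETC

open scoped Quaternion
open Pool.Agent.H315R3.ETC Pool.Agent.TH188.ET

/-- extension of valuation rings (Chevalley) -/
def S_EXTV : Prop := ∀ (F K : Type) [Field F] [Field K] [Algebra F K] (O : ValuationSubring F),
  ∃ O₁ : ValuationSubring K, O₁.comap (algebraMap F K) = O

/-- the maximal 2-extension -/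
def S_MAX2 : Prop := ∀ (F : Type) [Field F], (2 : F) ≠ 0 →
  ∀ K : IntermediateField F (AlgebraicClosure F),
    K = sSup {L : IntermediateField F (AlgebraicClosure F) |
      FiniteDimensional F L ∧ IsGalois F L ∧ ∃ k : ℕ, Module.finrank F L = 2 ^ k} →
    IsGalois F K ∧
    (∀ x : K, ∃ L : IntermediateField F K, x ∈ L ∧ FiniteDimensional F L ∧ IsGalois F L ∧
      ∃ k : ℕ, Module.finrank F L = 2 ^ k) ∧
    ∀ c : F, ∃ y : K, y ^ 2 = algebraMap F K c

/-- residue fields -/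
def S_RES : Prop := ∀ (F : Type) [Field F] (O : ValuationSubring F), Sqr O →
  ∀ (S : QData) (φ : Fˣ →* S.G), Function.Surjective φ →
    (∀ a : Fˣ, φ a = 1 ↔ ∃ b : Fˣ, a = b ^ 2) → φ (-1) = S.neg → S.q 1 1 = S.zero →
    (∀ a b c d : Fˣ, S.q (φ a) (φ b) = S.q (φ c) (φ d) ↔
      Nonempty (ℍ[F,(a : F),0,(b : F)] ≃ₐ[F] ℍ[F,(c : F),0,(d : F)])) →
    (2 : IsLocalRing.ResidueField O) ≠ 0 ∧
    (∀ hneg : S.neg ∈ O.unitGroup.map φ,
      IsStructureOf (IsLocalRing.ResidueField O) (restrN S (O.unitGroup.map φ) hneg)) ∧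
    ∀ g : S.G, g ∉ O.unitGroup.map φ → Bi S g

end Pool.Agent.Y920.ETC
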