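import Mathlib

set_option autoImplicit false

/-! A robust friendship lemma: statement. -/

namespace Pool.Agent.Y920.ETC

open Finset

/-- the number of common neighbours -/
def cn {V : Type} [Fintype V] [DecidableEq V] (Gr : SimpleGraph V) [DecidableRel Gr.Adj]
    (u v : V) : ℕ := #(Gr.neighborFinset u ∩ Gr.neighborFinset v)

/-- the excess at `u` -/
def bu {V : Type} [Fintype V] [DecidableEq V] (Gr : SimpleGraph V) [DecidableRel Gr.Adj]
    (u : V) : ℕ := ∑ v ∈ univ.filter (· ≠ u), (cn Gr u v - 1)

/-- the total excess -/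
def bt {V : Type} [Fintype V] [DecidableEq V] (Gr : SimpleGraph V) [DecidableRel Gr.Adj] : ℕ :=
  ∑ u, bu Gr u

/-- A finite simple graph in which any two different vertices have a common neighbour, all degrees
are powers of two between `2` and `N`, and not all pairs have exactly one common neighbour: then
there are at most `3 N b` ordered adjacent pairs of vertices of degree `≥ 4`, `b` the total
excess. -/
def S_GL : Prop := ∀ (V : Type) [Fintype V] [DecidableEq V] (Gr : SimpleGraph V)
  [DecidableRel Gr.Adj] (N : ℕ), (∀ v, Gr.degree v ≤ N) →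
    (∀ v, ∃ j : ℕ, 1 ≤ j ∧ Gr.degree v = 2 ^ j) →
    (∀ u v : V, u ≠ v → ∃ w, Gr.Adj u w ∧ Gr.Adj v w) → 1 ≤ bt Gr →
      #((univ : Finset (V × V)).filter fun p => Gr.Adj p.1 p.2 ∧ 2 < Gr.degree p.1 ∧
        2 < Gr.degree p.2) ≤ 3 * N * bt Gr

end Pool.Agent.Y920.ETC
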