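import Mathlib
import Pool.Agent.Y920.ETC.Count
import Pool.Agent.Y920.ETC.Stm2

set_option autoImplicit false

/-! Counting dependent quaternions, second version. -/

namespace Pool.Agent.Y920.ETC

open Pool.Agent.H315R3.ETC Finset

section count2

variable {S : QData} (h : IsQuat S) [Fintype S.G] [DecidableEq S.G] [DecidableEq S.Q]

open scoped Classical in
/-- the quaternions to be counted -/
noncomputable def TT (S : QData) [Fintype S.G] [DecidableEq S.Q] : Finset S.Q :=
  ((univ : Finset (S.G × S.G)).image fun p => S.q p.1 p.2).filter fun t =>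
    t ≠ S.zero ∧ ∀ a, S.q a a ≠ t

open scoped Classical in
/-- dependent pairs of slots -/
noncomputable def Tr (S : QData) [Fintype S.G] [DecidableEq S.G] [DecidableEq S.Q] (t : S.Q) :
    Finset (S.G × S.G × S.G) :=
  univ.filter fun p => p.1 ≠ p.2.1 ∧ (∃ x, S.q p.1 x = t) ∧ (∃ x, S.q p.2.1 x = t) ∧
    p.2.2 ≠ 1 ∧ S.q p.1 p.2.2 = S.zero ∧ S.q p.2.1 p.2.2 = S.zero

/-- quadruples -/
def XX (S : QData) [Fintype S.G] [DecidableEq S.G] [DecidableEq S.Q] :
    Finset ((_ : S.G) × (_ : S.G) × (S.G × S.G)) :=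
  ((univ : Finset S.G).filter (· ≠ 1)).sigma fun d =>
    ((A S d).filter (· ≠ 1)).sigma fun e => (A S d) ×ˢ (A S e)

variable {N : ℕ} (hN : ∀ a : S.G, a ≠ 1 → #(A S a) ≤ N)

include hN in
lemma card_XX : #(XX S) ≤ Fintype.card S.G * N ^ 3 := by
  rw [XX, Finset.card_sigma]
  have h1 : ∀ d ∈ ((univ : Finset S.G).filter (· ≠ 1)),
      #(((A S d).filter (· ≠ 1)).sigma fun e => (A S d) ×ˢ (A S e)) ≤ N ^ 3 := by
    intro d hd
    have hd1 : d ≠ 1 := (Finset.mem_filter.1 hd).2
    rw [Finset.card_sigma]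
    refine (Finset.sum_le_card_nsmul _ _ (N * N) ?_).trans ?_
    · intro e he
      rw [Finset.card_product]
      exact Nat.mul_le_mul (hN d hd1) (hN e (Finset.mem_filter.1 he).2)
    · rw [smul_eq_mul]
      calc _ ≤ N * (N * N) := Nat.mul_le_mul_right _
            ((Finset.card_le_card (Finset.filter_subset _ _)).trans (hN d hd1))
        _ = N ^ 3 := by ring
  refine (Finset.sum_le_card_nsmul _ _ _ h1).trans ?_
  rw [smul_eq_mul]
  exact Nat.mul_le_mul_right _ (Finset.card_le_univ _)

/-- the value of a quadruple -/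
def fX (S : QData) (p : (_ : S.G) × (_ : S.G) × (S.G × S.G)) : S.Q := S.q p.2.2.1 p.2.2.2

include h in
lemma card_Tr (t : S.Q) : 2 * #(Tr S t) ≤ #((XX S).filter fun p => fX S p = t) := by
  classical
  let g : ((_ : S.G) × (_ : S.G) × (S.G × S.G)) → S.G × S.G × S.G :=
    fun p => (p.2.2.1, p.2.2.1 * p.2.1, p.1)
  have key : ∀ r ∈ Tr S t, 2 ≤ #(((XX S).filter fun p => fX S p = t).filter fun p => g p = r) := by
    rintro ⟨u, v, d⟩ hr
    rw [Tr, Finset.mem_filter] at hr
    obtain ⟨-, huv, ⟨a, ha⟩, ⟨b, hb⟩, hd1, hud, hvd⟩ := hr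
    simp only at huv ha hb hd1 hud hvd
    obtain ⟨y, h1, h2⟩ := h.qs4 u a v b (ha.trans hb.symm)
    have huy : S.q u y = t := h1.symm.trans ha
    have hvy : S.q v y = t := h2.symm.trans hb
    have he1 : u * v ≠ 1 := fun e => huv (eq_of_mul h _ _ e)
    have hdu : S.q d u = S.zero := by rw [h.qs2]; exact hud
    have hdv : S.q d v = S.zero := by rw [h.qs2]; exact hvd
    have hde : S.q d (u * v) = S.zero := p_mul h hdu hdv
    have hey : S.q (u * v) y = S.zero := by
      rw [h.qs2, ← h.qs3, h.qs2 y u, h.qs2 y v, huy, hvy]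
    have hed : S.q (u * v) d = S.zero := by rw [h.qs2]; exact hde
    have heyd : S.q (u * v) (d * y) = S.zero := p_mul h hed hey
    have huyd : S.q u (d * y) = t := by rw [q_shift h _ hud]; exact huy
    have hyne : y ≠ d * y := by
      intro e
      apply hd1
      have := mul_cancel h d y
      rw [← e, h.exp2] at this
      exact this.symm
    have huuv : u * (u * v) = v := by rw [← mul_assoc, h.exp2, one_mul]
    let k : S.G → ((_ : S.G) × (_ : S.G) × (S.G × S.G)) := fun s => ⟨d, u * v, (u, s)⟩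
    have hk : Function.Injective k := by
      intro s s' hss
      simp only [k, Sigma.mk.injEq, heq_eq_eq, true_and, Prod.mk.injEq] at hss
      exact hss
    have hc : #(({y, d * y} : Finset S.G).image k) = 2 := by
      rw [Finset.card_image_of_injective _ hk, Finset.card_pair hyne]
    rw [← hc]
    apply Finset.card_le_card
    intro p hp
    rw [Finset.mem_image] at hp
    obtain ⟨s, hs, rfl⟩ := hp
    rw [Finset.mem_insert, Finset.mem_singleton] at hs
    rw [Finset.mem_filter, Finset.mem_filter, XX, Finset.mem_sigma, Finset.mem_sigma,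
      Finset.mem_product]
    refine ⟨⟨⟨?_, ?_, ?_, ?_⟩, ?_⟩, ?_⟩
    · simpa using hd1
    · rw [Finset.mem_filter, mem_A]
      exact ⟨hde, he1⟩
    · rw [mem_A]; exact hdu
    · rw [mem_A]
      show S.q (u * v) s = S.zero
      rcases hs with rfl | rfl
      · exact hey
      · exact heyd
    · show S.q u s = t
      rcases hs with rfl | rfl
      · exact huy
      · exact huyd
    · show (u, u * (u * v), d) = (u, v, d)
      rw [huuv]
  calc 2 * #(Tr S t) = ∑ r ∈ Tr S t, 2 := by rw [Finset.sum_const, smul_eq_mul, mul_comm]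
    _ ≤ ∑ r ∈ Tr S t, #(((XX S).filter fun p => fX S p = t).filter fun p => g p = r) :=
        Finset.sum_le_sum key
    _ = #(((XX S).filter fun p => fX S p = t).filter fun p => g p ∈ Tr S t) :=
        Finset.sum_card_fiberwise_eq_card_filter _ _ _
    _ ≤ _ := Finset.card_le_card (Finset.filter_subset _ _)

include h hN in
lemma sum_Tr : 2 * ∑ t ∈ TT S, #(Tr S t) ≤ Fintype.card S.G * N ^ 3 := by
  classical
  calc 2 * ∑ t ∈ TT S, #(Tr S t) = ∑ t ∈ TT S, 2 * #(Tr S t) := by rw [Finset.mul_sum]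
    _ ≤ ∑ t ∈ TT S, #((XX S).filter fun p => fX S p = t) :=
        Finset.sum_le_sum fun t _ => card_Tr h t
    _ = #((XX S).filter fun p => fX S p ∈ TT S) :=
        Finset.sum_card_fiberwise_eq_card_filter _ _ _
    _ ≤ #(XX S) := Finset.card_le_card (Finset.filter_subset _ _)
    _ ≤ _ := card_XX hN

section graph

variable {t : S.Q} (hl : ∀ a : S.G, S.q a a ≠ t)

include h in
lemma slot_ne (ht : t ≠ S.zero) (hl : ∀ a : S.G, S.q a a ≠ t) {v x : S.G} (hv : S.q v x = t) :
    v ≠ 1 ∧ v ≠ S.neg := by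
  refine ⟨(q_comm_one h ht hv).1, ?_⟩
  rintro rfl
  apply hl x
  rw [← hv, h.qs2 S.neg x, h.qs3]
  have := h.qs1 x
  rwa [mul_comm] at this

omit [DecidableEq S.G] in
include h in
open scoped Classical in
lemma deg_eq [Fintype (Vt S t)] (v : Vt S t) :
    (Gr' h hl).degree v = #(A S v.1) := by
  classical
  obtain ⟨y0, hy0⟩ := v.2
  rw [← SimpleGraph.card_neighborFinset_eq_degree]
  refine Finset.card_bij (fun y _ => y.1 * y0) ?_ ?_ ?_
  · intro y hy
    rw [SimpleGraph.mem_neighborFinset] at hy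
    have hy' : S.q v.1 y.1 = t := hy
    rw [mem_A, ← h.qs3, hy', hy0]
  · intro y _ y' _ e
    exact Subtype.ext (mul_right_cancel e)
  · intro g hg
    rw [mem_A] at hg
    have h1 : S.q v.1 (g * y0) = t := by rw [q_shift h _ hg]; exact hy0
    refine ⟨⟨g * y0, v.1, by rw [h.qs2]; exact h1⟩, ?_, mul_cancel h g y0⟩
    rw [SimpleGraph.mem_neighborFinset]
    exact h1

open scoped Classical in
include h in
lemma bt_le [Fintype (Vt S t)] : bt (Gr' h hl) ≤ #(Tr S t) := by
  classical
  have h1 : ∀ u v : Vt S t, u ≠ v → cn (Gr' h hl) u v - 1 ≤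
      #((univ : Finset S.G).filter fun d => d ≠ 1 ∧ S.q u.1 d = S.zero ∧ S.q v.1 d = S.zero) := by
    intro u v huv
    obtain ⟨a, ha⟩ := u.2
    obtain ⟨b, hb⟩ := v.2
    obtain ⟨y, e1, e2⟩ := h.qs4 u.1 a v.1 b (ha.trans hb.symm)
    have huy : S.q u.1 y = t := e1.symm.trans ha
    have hvy : S.q v.1 y = t := e2.symm.trans hb
    have h2 : cn (Gr' h hl) u v ≤
        #((univ : Finset S.G).filter fun d => S.q u.1 d = S.zero ∧ S.q v.1 d = S.zero) := by
      unfold cn
      refine Finset.card_le_card_of_injOn (fun z => z.1 * y) ?_ ?_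
      · intro z hz
        have hz' := Finset.mem_coe.1 hz
        rw [Finset.mem_inter, SimpleGraph.mem_neighborFinset, SimpleGraph.mem_neighborFinset] at hz'
        have hz1 : S.q u.1 z.1 = t := hz'.1
        have hz2 : S.q v.1 z.1 = t := hz'.2
        rw [Finset.mem_coe, Finset.mem_filter]
        refine ⟨Finset.mem_univ _, ?_, ?_⟩
        · rw [← h.qs3, hz1, huy]
        · rw [← h.qs3, hz2, hvy]
      · intro z _ z' _ e
        exact Subtype.ext (mul_right_cancel e)
    have h3 : ((univ : Finset S.G).filter fun d => S.q u.1 d = S.zero ∧ S.q v.1 d = S.zero) =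
        insert 1 ((univ : Finset S.G).filter fun d => d ≠ 1 ∧ S.q u.1 d = S.zero ∧
          S.q v.1 d = S.zero) := by
      ext d
      simp only [Finset.mem_filter, Finset.mem_univ, true_and, Finset.mem_insert]
      constructor
      · intro hd
        by_cases hd1 : d = 1
        · exact Or.inl hd1
        · exact Or.inr ⟨hd1, hd⟩
      · rintro (rfl | hd)
        · exact ⟨q_one h _, q_one h _⟩
        · exact hd.2
    rw [h3] at h2
    have h4 := h2.trans (Finset.card_insert_le _ _)
    omega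
  have h2 : bt (Gr' h hl) ≤ ∑ u : Vt S t, ∑ v ∈ univ.filter (· ≠ u),
      #((univ : Finset S.G).filter fun d => d ≠ 1 ∧ S.q u.1 d = S.zero ∧ S.q v.1 d = S.zero) := by
    unfold bt bu
    refine Finset.sum_le_sum fun u _ => Finset.sum_le_sum fun v hv => h1 u v ?_
    exact (Finset.mem_filter.1 hv).2.symm
  refine h2.trans ?_
  have h3 : ∑ u : Vt S t, ∑ v ∈ univ.filter (· ≠ u),
      #((univ : Finset S.G).filter fun d => d ≠ 1 ∧ S.q u.1 d = S.zero ∧ S.q v.1 d = S.zero) =
      #((univ : Finset (Vt S t)).sigma fun u => (univ.filter (· ≠ u)).sigma fun v =>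
        (univ : Finset S.G).filter fun d => d ≠ 1 ∧ S.q u.1 d = S.zero ∧
          S.q (v : Vt S t).1 d = S.zero) := by
    rw [Finset.card_sigma]
    refine Finset.sum_congr rfl fun u _ => ?_
    rw [Finset.card_sigma]
  rw [h3]
  refine Finset.card_le_card_of_injOn (fun p => (p.1.1, p.2.1.1, p.2.2)) ?_ ?_
  · rintro ⟨u, v, d⟩ hp
    rw [Finset.mem_coe, Finset.mem_sigma, Finset.mem_sigma, Finset.mem_filter,
      Finset.mem_filter] at hp
    obtain ⟨-, ⟨-, hvu⟩, -, hd1, hud, hvd⟩ := hp
    rw [Finset.mem_coe, Tr, Finset.mem_filter]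
    exact ⟨Finset.mem_univ _, fun e => hvu (Subtype.ext e.symm), u.2, v.2, hd1, hud, hvd⟩
  · rintro ⟨u, v, d⟩ _ ⟨u', v', d'⟩ _ e
    simp only [Prod.mk.injEq] at e
    obtain ⟨e1, e2, e3⟩ := e
    have e1' : u = u' := Subtype.ext e1
    have e2' : v = v' := Subtype.ext e2
    subst e1' e2' e3
    rfl

open scoped Classical in
include h in
lemma indep_of_bt [Fintype (Vt S t)] (hb : bt (Gr' h hl) = 0) : Indep S t := by
  classical
  intro u v huv hu hv d h1 h2
  by_contra hd
  obtain ⟨a, ha⟩ := hu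
  obtain ⟨b, hb'⟩ := hv
  obtain ⟨y, e1, e2⟩ := h.qs4 u a v b (ha.trans hb'.symm)
  have huy : S.q u y = t := e1.symm.trans ha
  have hvy : S.q v y = t := e2.symm.trans hb'
  have huyd : S.q u (d * y) = t := by rw [q_shift h _ h1]; exact huy
  have hvyd : S.q v (d * y) = t := by rw [q_shift h _ h2]; exact hvy
  let U : Vt S t := ⟨u, a, ha⟩
  let V : Vt S t := ⟨v, b, hb'⟩
  let Y : Vt S t := ⟨y, u, by rw [h.qs2]; exact huy⟩
  let Y' : Vt S t := ⟨d * y, u, by rw [h.qs2]; exact huyd⟩
  have hYY : Y ≠ Y' := by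
    intro e
    have e' : y = d * y := congrArg Subtype.val e
    apply hd
    have := mul_cancel h d y
    rw [← e', h.exp2] at this
    exact this.symm
  have hc : 2 ≤ cn (Gr' h hl) U V := by
    unfold cn
    rw [← Finset.card_pair hYY]
    apply Finset.card_le_card
    intro z hz
    rw [Finset.mem_insert, Finset.mem_singleton] at hz
    rw [Finset.mem_inter, SimpleGraph.mem_neighborFinset, SimpleGraph.mem_neighborFinset]
    rcases hz with rfl | rfl
    · exact ⟨huy, hvy⟩
    · exact ⟨huyd, hvyd⟩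
  have hVU : V ≠ U := fun e => huv (congrArg Subtype.val e).symm
  have h3 : cn (Gr' h hl) U V - 1 ≤ bu (Gr' h hl) U := by
    unfold bu
    exact Finset.single_le_sum (f := fun v => cn (Gr' h hl) U v - 1)
      (fun _ _ => Nat.zero_le _) (Finset.mem_filter.2 ⟨Finset.mem_univ _, hVU⟩)
  have h4 : bu (Gr' h hl) U ≤ bt (Gr' h hl) := by
    unfold bt
    exact Finset.single_le_sum (f := fun v => bu (Gr' h hl) v)
      (fun _ _ => Nat.zero_le _) (Finset.mem_univ U)
  omega

include h hN in
lemma card_E' (gl : S_GL) (ht : t ≠ S.zero) (hl : ∀ a : S.G, S.q a a ≠ t) :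
    #(((NR S) ×ˢ (NR S)).filter fun p => S.q p.1 p.2 = t) ≤ 3 * N * #(Tr S t) := by
  classical
  have hf : Fintype (Vt S t) := Fintype.ofFinite _
  by_cases hb : bt (Gr' h hl) = 0
  · have hI := indep_of_bt h hl hb
    obtain ⟨w, hw⟩ := rigid_slots h hl hI
    have : (((NR S) ×ˢ (NR S)).filter fun p => S.q p.1 p.2 = t) = ∅ := by
      rw [Finset.filter_eq_empty_iff]
      rintro ⟨x, y⟩ hp hxy
      rw [Finset.mem_product] at hp
      have hx : ¬ Hr S x := by simpa [NR] using hp.1
      have hy : ¬ Hr S y := by simpa [NR] using hp.2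
      have hxy' : S.q x y = t := hxy
      have hxw : x = w := by
        by_contra hc
        exact hx (hw x hc ⟨y, hxy'⟩)
      have hyw : y = w := by
        by_contra hc
        exact hy (hw y hc ⟨x, by rw [h.qs2]; exact hxy'⟩)
      rw [hxw, hyw] at hxy'
      exact hl w hxy'
    rw [this]
    simp
  · have h2 : ∀ v : Vt S t, 2 ≤ #(A S v.1) := by
      intro v
      obtain ⟨x, hx⟩ := v.2
      have hne := slot_ne h ht hl hx
      have h1 : (1 : S.G) ≠ S.neg * v.1 := fun e => hne.2 (eq_of_mul h _ _ e.symm).symm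
      rw [← Finset.card_pair h1]
      apply Finset.card_le_card
      intro z hz
      rw [Finset.mem_insert, Finset.mem_singleton] at hz
      rw [mem_A]
      rcases hz with rfl | rfl
      · exact q_one h _
      · exact h.qs1 _
    have hpow : ∀ v : Vt S t, ∃ j : ℕ, 1 ≤ j ∧ (Gr' h hl).degree v = 2 ^ j := by
      intro v
      rw [deg_eq h hl]
      have hP : IsPGroup 2 S.G := fun g => ⟨1, by rw [pow_one, pow_two]; exact h.exp2 g⟩
      obtain ⟨n, hn⟩ := IsPGroup.iff_card.1 (hP.to_subgroup (D h v.1))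
      have hc : Nat.card (D h v.1) = #(A S v.1) := by
        have : ((D h v.1 : Subgroup S.G) : Set S.G) = ((A S v.1 : Finset S.G) : Set S.G) := by
          ext b; simp [A, D]
        have h3 : Nat.card (D h v.1) = ((D h v.1 : Subgroup S.G) : Set S.G).ncard := rfl
        rw [h3, this, Set.ncard_coe_finset]
      refine ⟨n, ?_, by rw [← hc, hn]⟩
      by_contra hn0
      have hn0' : n = 0 := by omega
      have := h2 v
      rw [← hc, hn, hn0'] at this
      norm_num at this
    have hne1 : ∀ v : Vt S t, v.1 ≠ 1 := fun v => by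
      obtain ⟨x, hx⟩ := v.2
      exact (slot_ne h ht hl hx).1
    have key := gl (Vt S t) (Gr' h hl) N (fun v => by rw [deg_eq h hl]; exact hN _ (hne1 v)) hpow
      (by
        intro u v _
        obtain ⟨a, ha⟩ := u.2
        obtain ⟨b, hb'⟩ := v.2
        obtain ⟨y, e1, e2⟩ := h.qs4 u.1 a v.1 b (ha.trans hb'.symm)
        refine ⟨⟨y, u.1, ?_⟩, ?_, ?_⟩
        · rw [h.qs2]; exact e1.symm.trans ha
        · exact e1.symm.trans ha
        · exact e2.symm.trans hb') (by omega)
    have hNRdeg : ∀ v : Vt S t, ¬ Hr S v.1 → 2 < (Gr' h hl).degree v := by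
      intro v hv
      rw [deg_eq h hl]
      unfold Hr at hv
      push Not at hv
      obtain ⟨e, he, he1, he2⟩ := hv
      obtain ⟨x, hx⟩ := v.2
      have hne := slot_ne h ht hl hx
      have h1 : (1 : S.G) ≠ S.neg * v.1 := fun e => hne.2 (eq_of_mul h _ _ e.symm).symm
      have h3 : #({e, 1, S.neg * v.1} : Finset S.G) = 3 := by
        rw [Finset.card_insert_of_notMem, Finset.card_pair h1]
        simp only [Finset.mem_insert, Finset.mem_singleton, not_or]
        exact ⟨he1, he2⟩
      have h4 : ({e, 1, S.neg * v.1} : Finset S.G) ⊆ A S v.1 := by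
        intro z hz
        rw [Finset.mem_insert, Finset.mem_insert, Finset.mem_singleton] at hz
        rw [mem_A]
        rcases hz with rfl | rfl | rfl
        · exact he
        · exact q_one h _
        · exact h.qs1 _
      have := Finset.card_le_card h4
      omega
    have hle : #(((NR S) ×ˢ (NR S)).filter fun p => S.q p.1 p.2 = t) ≤
        #((univ : Finset (Vt S t × Vt S t)).filter fun p => (Gr' h hl).Adj p.1 p.2 ∧
          2 < (Gr' h hl).degree p.1 ∧ 2 < (Gr' h hl).degree p.2) := by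
      have hsub : (((NR S) ×ˢ (NR S)).filter fun p => S.q p.1 p.2 = t) ⊆
          (((univ : Finset (Vt S t × Vt S t)).filter fun p => (Gr' h hl).Adj p.1 p.2 ∧
          2 < (Gr' h hl).degree p.1 ∧ 2 < (Gr' h hl).degree p.2)).image
            (fun p => (p.1.1, p.2.1)) := by
        rintro ⟨x, y⟩ hp
        rw [Finset.mem_filter, Finset.mem_product] at hp
        obtain ⟨⟨hx, hy⟩, hxy⟩ := hp
        have hx : ¬ Hr S x := by simpa [NR] using hx
        have hy : ¬ Hr S y := by simpa [NR] using hy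
        have hxy : S.q x y = t := hxy
        rw [Finset.mem_image]
        refine ⟨(⟨x, y, hxy⟩, ⟨y, x, by rw [h.qs2]; exact hxy⟩), ?_, rfl⟩
        rw [Finset.mem_filter]
        exact ⟨Finset.mem_univ _, hxy, hNRdeg _ hx, hNRdeg _ hy⟩
      exact (Finset.card_le_card hsub).trans Finset.card_image_le
    refine hle.trans (key.trans (Nat.mul_le_mul_left _ (bt_le h hl)))

end graph

include h hN in
/-- the number of elements which are not half rigid -/
theorem card_NR2 (gl : S_GL) :
    4 * #(NR S) ^ 2 ≤ Fintype.card S.G * (6 * N ^ 4 + 4 * N ^ 2 + 4 * N + 4) := by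
  classical
  have hsub : (NR S) ×ˢ (NR S) ⊆
      (((univ : Finset (S.G × S.G)).filter fun p => S.q p.1 p.2 = S.zero) ∪
      ((univ : Finset (S.G × S.G)).filter fun p => S.q p.1 p.2 ≠ S.zero ∧
        ∃ a, S.q a a = S.q p.1 p.2)) ∪
      ((TT S).biUnion fun t => ((NR S) ×ˢ (NR S)).filter fun p => S.q p.1 p.2 = t) := by
    rintro ⟨x, y⟩ hp
    by_cases h0 : S.q x y = S.zero
    · exact Finset.mem_union_left _ (Finset.mem_union_left _ (by simpa using h0))
    by_cases hl : ∃ a, S.q a a = S.q x y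
    · refine Finset.mem_union_left _ (Finset.mem_union_right _ ?_)
      rw [Finset.mem_filter]
      exact ⟨Finset.mem_univ _, h0, hl⟩
    · refine Finset.mem_union_right _ (Finset.mem_biUnion.2 ⟨S.q x y, ?_, ?_⟩)
      · rw [TT, Finset.mem_filter]
        push Not at hl
        exact ⟨Finset.mem_image.2 ⟨(x, y), Finset.mem_univ _, rfl⟩, h0, hl⟩
      · rw [Finset.mem_filter]
        exact ⟨hp, rfl⟩
  have h1 := (Finset.card_le_card hsub).trans ((Finset.card_union_le _ _).trans
    (Nat.add_le_add_right (Finset.card_union_le _ _) _))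
  rw [Finset.card_product] at h1
  have h2 := card_Z h hN
  have h3 := card_L h hN
  have h4 : #((TT S).biUnion fun t => ((NR S) ×ˢ (NR S)).filter
      fun p => S.q p.1 p.2 = t) ≤ 3 * N * ∑ t ∈ TT S, #(Tr S t) := by
    refine Finset.card_biUnion_le.trans ?_
    rw [Finset.mul_sum]
    refine Finset.sum_le_sum fun t ht => ?_
    rw [TT, Finset.mem_filter] at ht
    exact card_E' h hN gl ht.2.1 ht.2.2
  have h5 := sum_Tr h hN
  have h6 : #(NR S) * #(NR S) ≤ Fintype.card S.G * (N + 1) + Fintype.card S.G * N ^ 2 +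
      3 * N * ∑ t ∈ TT S, #(Tr S t) := h1.trans (Nat.add_le_add (Nat.add_le_add h2 h3) h4)
  calc 4 * #(NR S) ^ 2 = 4 * (#(NR S) * #(NR S)) := by ring
    _ ≤ 4 * (Fintype.card S.G * (N + 1) + Fintype.card S.G * N ^ 2 +
      3 * N * ∑ t ∈ TT S, #(Tr S t)) := Nat.mul_le_mul_left _ h6
    _ = Fintype.card S.G * (4 * N ^ 2 + 4 * N + 4) + (6 * N) * (2 * ∑ t ∈ TT S, #(Tr S t)) := by
        ring
    _ ≤ Fintype.card S.G * (4 * N ^ 2 + 4 * N + 4) + (6 * N) * (Fintype.card S.G * N ^ 3) :=
        Nat.add_le_add_left (Nat.mul_le_mul_left _ h5) _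
    _ = _ := by ring

end count2

end Pool.Agent.Y920.ETC
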