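import Mathlib
import Pool.Agent.Y920.ETC.Count2
import Pool.Agent.Y920.ETC.Small

set_option autoImplicit false

/-! Structures with small value groups have birigid elements: the bound with exponent four. -/

namespace Pool.Agent.Y920.ETC

open Pool.Agent.H315R3.ETC Finset

variable {S : QData} (h : IsQuat S)

include h in
lemma one_le_vs [Finite S.G] (a : S.G) : 1 ≤ vs S a := by
  obtain ⟨n, hn⟩ := vs_pow h a
  rw [hn]
  exact Nat.one_le_two_pow

include h in
lemma two_le_vs [Finite S.G] {a : S.G} (ha : a ≠ S.neg) : 2 ≤ vs S a := by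
  have h1 : (1 : S.G) ≠ S.neg * a := fun e => ha (eq_of_mul h _ _ e.symm).symm
  have hsub : (({1, S.neg * a} : Set S.G)) ⊆ {b : S.G | S.q a b = S.zero} := by
    intro b hb
    rcases hb with rfl | rfl
    · exact q_one h a
    · exact h.qs1 a
  have h2 := Set.ncard_le_ncard hsub (Set.toFinite _)
  rw [Set.ncard_pair h1] at h2
  exact h2

include h in
/-- small value groups give birigid elements -/
theorem exists_bi2 (gl : S_GL) [Finite S.G] (h2 : 1 < Nat.card S.G)
    (hs : ∀ a : S.G, a ≠ 1 → 4 * vs S a ^ 4 < Nat.card S.G) : ∃ a : S.G, Bi S a := by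
  classical
  have hf : Fintype S.G := Fintype.ofFinite _
  have h4 : 4 ≤ Nat.card S.G := by
    have hnt : Nontrivial S.G := Finite.one_lt_card_iff_nontrivial.1 h2
    obtain ⟨a, ha⟩ := _root_.exists_ne (1 : S.G)
    have h3 := hs a ha
    have h5 := one_le_vs h a
    have h6 : 1 ≤ vs S a ^ 4 := Nat.one_le_pow _ _ h5
    omega
  obtain ⟨b0, hb0, hb1⟩ := Pool.Agent.Y920.ETC.exists_ne h h4
  by_cases hsm : ∀ a : S.G, a ≠ 1 → vs S a ≤ 3
  · refine ⟨b0, hb0, hb1, hr_of_small h (hsm _ hb0) hb1, hr_of_small h (hsm _ ?_) ?_⟩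
    · intro e
      exact hb1 (eq_of_mul h _ _ e).symm
    · intro e
      exact hb0 (by rwa [mul_eq_left] at e)
  have hvs : ∀ a, vs S a = #(A S a) := by
    intro a
    have : {b : S.G | S.q a b = S.zero} = ((A S a : Finset S.G) : Set S.G) := by
      ext b; simp [A]
    rw [vs, this, Set.ncard_coe_finset]
  have hne : ((univ : Finset S.G).filter (· ≠ 1)).Nonempty := ⟨b0, by simpa using hb0⟩
  obtain ⟨a0, ha0, hmax⟩ := Finset.exists_max_image _ (fun a => vs S a) hne
  have ha01 : a0 ≠ 1 := (Finset.mem_filter.1 ha0).2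
  obtain ⟨k, hk⟩ := vs_pow h a0
  obtain ⟨n, hn⟩ := card_pow h
  set N := vs S a0 with hNdef
  have hNmax : ∀ a : S.G, a ≠ 1 → vs S a ≤ N := fun a ha => hmax a (by simpa using ha)
  have hN4 : 4 ≤ N := by
    push Not at hsm
    obtain ⟨a, ha, ha3⟩ := hsm
    exact le_trans ha3 (hNmax a ha)
  have hN : ∀ a : S.G, a ≠ 1 → #(A S a) ≤ N := fun a ha => by rw [← hvs]; exact hNmax a ha
  have h2N : 8 * N ^ 4 ≤ Nat.card S.G := by
    have h1 := hs a0 ha01
    rw [← hNdef, hk, hn, ← pow_mul] at h1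
    have h1' : 2 ^ (k * 4 + 2) < 2 ^ n := by
      calc 2 ^ (k * 4 + 2) = 4 * 2 ^ (k * 4) := by rw [pow_add]; ring
        _ < _ := h1
    have h2 : k * 4 + 2 < n := (Nat.pow_lt_pow_iff_right (by norm_num)).1 h1'
    rw [hk, hn, ← pow_mul]
    calc 8 * 2 ^ (k * 4) = 2 ^ (k * 4 + 3) := by rw [pow_add]; ring
      _ ≤ _ := Nat.pow_le_pow_right (by norm_num) h2
  have hNR := card_NR2 h hN gl
  rw [← Nat.card_eq_fintype_card] at hNR
  have hlt : 6 * N ^ 4 + 4 * N ^ 2 + 4 * N + 4 < 8 * N ^ 4 := by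
    have h1 : 4 * N ^ 2 + 4 * N + 4 < 2 * N ^ 4 := by
      have h2 : N ^ 4 = N ^ 2 * N ^ 2 := by ring
      have h3 : 4 ^ 2 ≤ N ^ 2 := Nat.pow_le_pow_left hN4 2
      have h4' : N ^ 2 * 4 ^ 2 ≤ N ^ 4 := by rw [h2]; exact Nat.mul_le_mul_left _ h3
      nlinarith
    omega
  have h2NR : 2 * #(NR S) < Nat.card S.G := by
    by_contra hcon
    push Not at hcon
    have h1 : Nat.card S.G ^ 2 ≤ (2 * #(NR S)) ^ 2 := Nat.pow_le_pow_left hcon 2
    have h2 : (2 * #(NR S)) ^ 2 = 4 * #(NR S) ^ 2 := by ring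
    have h3 : Nat.card S.G * (6 * N ^ 4 + 4 * N ^ 2 + 4 * N + 4) <
        Nat.card S.G * Nat.card S.G :=
      Nat.mul_lt_mul_of_pos_left (lt_of_lt_of_le hlt h2N) (by omega)
    have h5 : Nat.card S.G ^ 2 = Nat.card S.G * Nat.card S.G := by ring
    omega
  by_contra hcon
  push Not at hcon
  have h1NR : (1 : S.G) ∈ NR S := by
    rw [NR, Finset.mem_filter]
    refine ⟨Finset.mem_univ _, fun hr => ?_⟩
    rcases hr b0 (q_one' h b0) with h5 | h5
    · exact hb0 h5
    · exact hb1 (by rw [h5, mul_one])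
  have hcov : (univ : Finset S.G) ⊆ NR S ∪ (NR S).image (S.neg * ·) := by
    intro a _
    rw [Finset.mem_union, Finset.mem_image]
    by_contra hc
    push Not at hc
    obtain ⟨hc1, hc2⟩ := hc
    have ha1 : a ≠ 1 := by rintro rfl; exact hc1 h1NR
    have ha2 : a ≠ S.neg := by
      rintro rfl
      exact hc2 1 h1NR (mul_one _)
    refine hcon a ⟨ha1, ha2, ?_, ?_⟩
    · by_contra hc3
      exact hc1 (by rw [NR, Finset.mem_filter]; exact ⟨Finset.mem_univ _, hc3⟩)
    · by_contra hc3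
      exact hc2 (S.neg * a) (by rw [NR, Finset.mem_filter]; exact ⟨Finset.mem_univ _, hc3⟩)
        (neg_neg_mul h a)
  have h5 := (Finset.card_le_card hcov).trans ((Finset.card_union_le _ _).trans
    (Nat.add_le_add_left Finset.card_image_le _))
  rw [Finset.card_univ, ← Nat.card_eq_fintype_card] at h5
  omega

include h in
/-- the basic part is small -/
theorem card_basic2 (gl : S_GL) [Finite S.G] (B : Subgroup S.G) (hB : ∀ a : S.G, a ∈ B ↔ ¬ Bi S a)
    {N : ℕ} (hN0 : 1 ≤ N) (hN : ∀ a : S.G, a ≠ 1 → vs S a ≤ N) : Nat.card B ≤ 4 * N ^ 4 := by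
  have hneg : S.neg ∈ B := (hB _).2 fun hb => hb.2.1 rfl
  have hK : ∀ a : S.G, a ∉ B → Bi S a := fun a ha => by
    by_contra hc
    exact ha ((hB a).2 hc)
  obtain ⟨hq, hin⟩ := isQuat_restrN h B hneg hK
  by_contra hcN
  push Not at hcN
  have hN1 : 1 ≤ N ^ 4 := Nat.one_le_pow _ _ hN0
  haveI : Finite (restrN S B hneg).G := inferInstanceAs (Finite B)
  obtain ⟨b, hb⟩ := exists_bi2 (S := restrN S B hneg) hq gl (by
      show 1 < Nat.card B
      omega) (by
    intro (a : B) ha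
    have h5 := vs_restrN h B hneg hK a ha
    have h6 : (a : S.G) ≠ 1 := fun e => ha (Subtype.ext e)
    calc 4 * vs (restrN S B hneg) a ^ 4 = 4 * vs S a.1 ^ 4 := by rw [h5]
      _ ≤ 4 * N ^ 4 := Nat.mul_le_mul_left _ (Nat.pow_le_pow_left (hN _ h6) 4)
      _ < Nat.card B := hcN)
  -- `b` is birigid in `S`
  obtain ⟨b1, b2, b3, b4⟩ := hb
  have hbB : (b : B).1 ∈ B := (b : B).2
  refine ((hB _).1 hbB) ⟨fun e => b1 (Subtype.ext e), fun e => b2 (Subtype.ext e), ?_, ?_⟩
  · intro e he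
    have heB : e ∈ B := hin _ _ hbB (fun e => b1 (Subtype.ext e)) he
    rcases b3 ⟨e, heB⟩ he with h5 | h5
    · exact Or.inl (congrArg Subtype.val h5)
    · exact Or.inr (congrArg Subtype.val h5)
  · intro e he
    have hnb : S.neg * (b : B).1 ∈ B := B.mul_mem hneg hbB
    have heB : e ∈ B := hin _ _ hnb
      (fun e => b2 (Subtype.ext (eq_of_mul h _ _ e).symm)) he
    rcases b4 ⟨e, heB⟩ he with h5 | h5
    · exact Or.inl (congrArg Subtype.val h5)
    · exact Or.inr (congrArg Subtype.val h5)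

end Pool.Agent.Y920.ETC
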