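import Mathlib
import Pool.Agent.Y920.ETC.Small2
import Pool.Agent.Y67.ET.Basic
import Pool.Agent.Y781.ET.Ext

set_option autoImplicit false

/-! Iterated group extensions. -/

namespace Pool.Agent.Y920.ETC

open Pool.Agent.H315R3.ETC Finset

lemma iso_refl (S : QData) : Iso S S :=
  ⟨MulEquiv.refl _, rfl, fun _ _ _ _ => Iff.rfl⟩

lemma iso_trans {A B C : QData} (h1 : Iso A B) (h2 : Iso B C) : Iso A C := by
  obtain ⟨f, hf, hfq⟩ := h1
  obtain ⟨g, hg, hgq⟩ := h2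
  refine ⟨f.trans g, ?_, fun a b c d => ?_⟩
  · show g (f A.neg) = C.neg
    rw [hf, hg]
  · exact (hfq a b c d).trans (hgq _ _ _ _)

lemma map_pw {G H : Type} [CommGroup G] [CommGroup H] (f : G ≃* H) (a : G) (β : C2) :
    f (pw a β) = pw (f a) β := by
  unfold pw
  split_ifs
  · exact map_one f
  · rfl

lemma iso_ext {A B : QData} (h1 : Iso A B) : Iso (ext A) (ext B) := by
  obtain ⟨f, hf, hfq⟩ := h1
  refine ⟨MulEquiv.prodCongr f (MulEquiv.refl C2), ?_, ?_⟩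
  · show (f A.neg, (1 : C2)) = (B.neg, 1)
    rw [hf]
  · intro (a : A.G × C2) (b : A.G × C2) (c : A.G × C2) (d : A.G × C2)
    show ((A.q a.1 b.1, pw (pw A.neg a.2) b.2 * pw a.1 b.2 * pw b.1 a.2) : A.Q × A.G) =
      (A.q c.1 d.1, pw (pw A.neg c.2) d.2 * pw c.1 d.2 * pw d.1 c.2) ↔
      ((B.q (f a.1) (f b.1), pw (pw B.neg a.2) b.2 * pw (f a.1) b.2 * pw (f b.1) a.2) :
        B.Q × B.G) =
      (B.q (f c.1) (f d.1), pw (pw B.neg c.2) d.2 * pw (f c.1) d.2 * pw (f d.1) c.2)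
    have e : ∀ a b : A.G × C2, pw (pw B.neg a.2) b.2 * pw (f a.1) b.2 * pw (f b.1) a.2 =
        f (pw (pw A.neg a.2) b.2 * pw a.1 b.2 * pw b.1 a.2) := by
      intro a b
      rw [map_mul, map_mul, map_pw, map_pw, map_pw, map_pw, hf]
    rw [e a b, e c d, Prod.mk_inj, Prod.mk_inj, hfq a.1 b.1 c.1 d.1]
    exact and_congr_right fun _ => (f.injective.eq_iff).symm

lemma card_two {S : QData} (h : IsQuat S) (K : Subgroup S.G) (x : S.G) (hxK : x ∉ K)
    (hK : ∀ y : S.G, y ∈ K ∨ y * x ∈ K) : 2 * Nat.card K = Nat.card S.G := by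
  have e := phi h.exp2 K x hxK hK
  rw [← Nat.card_congr e.toEquiv, Nat.card_prod, card_C2, mul_comm]

/-- a birigid element gives a group extension -/
theorem bi_ext {S : QData} (h : IsQuat S) [Finite S.G] {b : S.G} (hb : Bi S b) :
    ∃ T : QData, IsQuat T ∧ Finite T.G ∧ 2 * Nat.card T.G = Nat.card S.G ∧ Iso (ext T) S ∧
      ∀ N : ℕ, (∀ a : S.G, a ≠ 1 → vs S a ≤ N) → ∀ a : T.G, a ≠ 1 → vs T a ≤ N := by
  obtain ⟨B, hB⟩ := Pool.Agent.Y67.ET.t_BASIC S h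
  have hbB : b ∉ B := fun hc => (hB b).1 hc hb
  obtain ⟨K, hBK, hbK, hK⟩ := split h.exp2 B b hbB
  have hneg : S.neg ∈ K := hBK ((hB _).2 fun hb => hb.2.1 rfl)
  have hout : ∀ a : S.G, a ∉ K → Bi S a := fun a ha => by
    by_contra hc
    exact ha (hBK ((hB a).2 hc))
  obtain ⟨h1, h2⟩ := Pool.Agent.Y781.ET.t_EXT S h K b hneg hbK hK hout
  refine ⟨restrN S K hneg, h1, inferInstanceAs (Finite K), card_two h K b hbK hK, h2, ?_⟩
  intro N hN (a : K) ha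
  rw [vs_restrN h K hneg hout a ha]
  exact hN _ fun e => ha (Subtype.ext e)

/-- iterated extensions of small structures -/
theorem iter (gl : S_GL) {N : ℕ} (hN1 : 1 ≤ N) : ∀ n : ℕ, ∀ S : QData, IsQuat S → Finite S.G →
    Nat.card S.G ≤ n → (∀ a : S.G, a ≠ 1 → vs S a ≤ N) →
    ∃ (T : QData) (k : ℕ), IsQuat T ∧ Finite T.G ∧ Nat.card T.G ≤ 4 * N ^ 4 ∧
      2 ^ k * Nat.card T.G = Nat.card S.G ∧ (∀ a : T.G, a ≠ 1 → vs T a ≤ N) ∧
      Iso (ext^[k] T) S := by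
  intro n
  induction n with
  | zero =>
    intro S h hf hc
    have : 0 < Nat.card S.G := Nat.card_pos
    omega
  | succ n ih =>
    intro S h hf hc hN
    by_cases hs : Nat.card S.G ≤ 4 * N ^ 4
    · exact ⟨S, 0, h, hf, hs, by simp, hN, iso_refl S⟩
    push Not at hs
    have hN4 : 1 ≤ N ^ 4 := Nat.one_le_pow _ _ hN1
    obtain ⟨b, hb⟩ := exists_bi2 h gl (by omega) (fun a ha =>
      lt_of_le_of_lt (Nat.mul_le_mul_left _ (Nat.pow_le_pow_left (hN a ha) 4)) hs)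
    obtain ⟨T, hT, hTf, hTc, hTi, hTN⟩ := bi_ext h hb
    have hTpos : 0 < Nat.card T.G := Nat.card_pos
    obtain ⟨R, k, hR, hRf, hRc, hRk, hRN, hRi⟩ := ih T hT hTf (by omega) (hTN N hN)
    refine ⟨R, k + 1, hR, hRf, hRc, ?_, hRN, ?_⟩
    · rw [pow_succ, mul_comm (2 ^ k) 2, mul_assoc, hRk, hTc]
    · rw [Function.iterate_succ_apply']
      exact iso_trans (iso_ext hRi) hTi

end Pool.Agent.Y920.ETC
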