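import Mathlib
import Pool.Agent.Y920.ETC.Iter

set_option autoImplicit false

/-! Subgroups outside which all elements are birigid. -/

namespace Pool.Agent.Y920.ETC

open Pool.Agent.H315R3.ETC Finset

lemma iso_iter {A B : QData} (h : Iso A B) : ∀ k : ℕ, Iso (ext^[k] A) (ext^[k] B) := by
  intro k
  induction k with
  | zero => exact h
  | succ k ih =>
    rw [Function.iterate_succ_apply', Function.iterate_succ_apply']
    exact iso_ext ih

theorem chain : ∀ n : ℕ, ∀ S : QData, IsQuat S → Finite S.G → Nat.card S.G ≤ n →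
    ∀ (K₀ : Subgroup S.G) (hneg : S.neg ∈ K₀), (∀ g : S.G, g ∉ K₀ → Bi S g) →
      ∃ k : ℕ, 2 ^ k * Nat.card K₀ = Nat.card S.G ∧ Iso (ext^[k] (restrN S K₀ hneg)) S := by
  intro n
  induction n with
  | zero =>
    intro S h hf hc
    have : 0 < Nat.card S.G := Nat.card_pos
    omega
  | succ n ih =>
    intro S h hf hc K₀ hneg hK₀
    by_cases htop : ∀ g : S.G, g ∈ K₀
    · refine ⟨0, ?_, ?_⟩
      · have : K₀ = ⊤ := by
          rw [Subgroup.eq_top_iff']; exact htop
        rw [this, pow_zero, one_mul, Subgroup.card_top]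
      · refine ⟨MulEquiv.ofBijective K₀.subtype ⟨Subtype.val_injective, fun g =>
          ⟨⟨g, htop g⟩, rfl⟩⟩, rfl, fun _ _ _ _ => Iff.rfl⟩
    · push Not at htop
      obtain ⟨x, hx⟩ := htop
      obtain ⟨K, hKK, hxK, hK⟩ := split h.exp2 K₀ x hx
      have hnegK : S.neg ∈ K := hKK hneg
      have hout : ∀ a : S.G, a ∉ K → Bi S a := fun a ha => hK₀ a fun hc => ha (hKK hc)
      obtain ⟨h1, h2⟩ := Pool.Agent.Y781.ET.t_EXT S h K x hnegK hxK hK hout
      have hc2 := card_two h K x hxK hK
      have hKpos : 0 < Nat.card K := Nat.card_pos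
      have hfK : Finite (restrN S K hnegK).G := inferInstanceAs (Finite K)
      obtain ⟨k, hk1, hk2⟩ := ih (restrN S K hnegK) h1 hfK
        (by show Nat.card K ≤ n; omega) (K₀.subgroupOf K)
        (by
          show (⟨S.neg, hnegK⟩ : K) ∈ K₀.subgroupOf K
          rw [Subgroup.mem_subgroupOf]
          exact hneg)
        (by
          intro (g : K) hg
          have hg' : (g : S.G) ∉ K₀ := fun hc => hg (Subgroup.mem_subgroupOf.2 hc)
          obtain ⟨g1, g2, g3, g4⟩ := hK₀ _ hg'
          refine ⟨fun e => g1 (congrArg Subtype.val e), fun e => g2 (congrArg Subtype.val e), ?_, ?_⟩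
          · intro (e : K) he
            rcases g3 e.1 he with h5 | h5
            · exact Or.inl (Subtype.ext h5)
            · exact Or.inr (Subtype.ext h5)
          · intro (e : K) he
            rcases g4 e.1 he with h5 | h5
            · exact Or.inl (Subtype.ext h5)
            · exact Or.inr (Subtype.ext h5))
      have hcard : Nat.card (K₀.subgroupOf K) = Nat.card K₀ :=
        Nat.card_congr (Subgroup.subgroupOfEquivOfLe hKK).toEquiv
      refine ⟨k + 1, ?_, ?_⟩
      · rw [← hcard, pow_succ, mul_comm (2 ^ k) 2, mul_assoc]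
        have : 2 ^ k * Nat.card (K₀.subgroupOf K) = Nat.card K := hk1
        rw [this, hc2]
      · rw [Function.iterate_succ_apply']
        refine iso_trans (iso_ext ?_) h2
        refine iso_trans (iso_iter ?_ k) hk2
        refine ⟨(Subgroup.subgroupOfEquivOfLe hKK).symm, rfl, fun _ _ _ _ => Iff.rfl⟩

end Pool.Agent.Y920.ETC
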