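import Mathlib
import Pool.Agent.Y920.ETC.Stm3
import Pool.Agent.Y920.ETC.Iter
import Pool.Agent.Y43.ET.GL
import Pool.Agent.Y925.ET.WA
import Pool.Agent.Y447.ET.WB
import Pool.Agent.Y67.ET.Coarse

set_option autoImplicit false

/-! Fields with small norm groups. -/

namespace Pool.Agent.Y920.ETC

open scoped Quaternion
open Pool.Agent.H315R3.ETC Pool.Agent.TH188.ET

section

variable {F : Type} [Field F]

/-- the squares -/
def sqG (F : Type) [Field F] : Subgroup Fˣ := (powMonoidHom 2 : Fˣ →* Fˣ).range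

lemma mem_sqG {a : Fˣ} : a ∈ sqG F ↔ ∃ b : Fˣ, a = b ^ 2 := by
  rw [sqG, MonoidHom.mem_range]
  constructor
  · rintro ⟨b, rfl⟩; exact ⟨b, rfl⟩
  · rintro ⟨b, rfl⟩; exact ⟨b, rfl⟩

/-- the group of the nonzero values of `x² - a y²` -/
def nG (a : Fˣ) : Subgroup Fˣ where
  carrier := {c | ∃ x y : F, (c : F) = x ^ 2 - a * y ^ 2}
  one_mem' := NormFrom.one a
  mul_mem' := NormFrom.mul
  inv_mem' := NormFrom.inv

variable {S : QData} {φ : Fˣ →* S.G} (hs : Function.Surjective φ)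
  (hk : ∀ a : Fˣ, φ a = 1 ↔ ∃ b : Fˣ, a = b ^ 2) (hn : φ (-1) = S.neg)
  (h0 : S.q 1 1 = S.zero)
  (hq : ∀ a b c d : Fˣ, S.q (φ a) (φ b) = S.q (φ c) (φ d) ↔
      Nonempty (ℍ[F,(a : F),0,(b : F)] ≃ₐ[F] ℍ[F,(c : F),0,(d : F)]))

include hk in
lemma ker_eq : φ.ker = sqG F := by
  ext a
  rw [MonoidHom.mem_ker, hk, mem_sqG]

include h0 hq in
lemma q_zero (h2 : (2 : F) ≠ 0) (a b : Fˣ) : S.q (φ a) (φ b) = S.zero ↔ NormFrom a b := by
  have h := hq a b 1 1
  rw [map_one, h0] at h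
  rw [h]
  exact qiso_one h2 a b

include hs hk h0 hq in
lemma vs_eq (h2 : (2 : F) ≠ 0) (a : Fˣ) : vs S (φ a) = (sqG F).relIndex (nG a) := by
  rw [← ker_eq hk, Subgroup.relIndex_ker]
  have : {b : S.G | S.q (φ a) b = S.zero} = (((nG a).map φ : Subgroup S.G) : Set S.G) := by
    ext b
    obtain ⟨c, rfl⟩ := hs b
    rw [Set.mem_setOf_eq, q_zero h0 hq h2, SetLike.mem_coe, Subgroup.mem_map]
    constructor
    · intro hc
      exact ⟨c, hc, rfl⟩
    · rintro ⟨d, hd, hdc⟩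
      obtain ⟨e, rfl⟩ := eq_mul_sq hk hdc
      exact (NormFrom.mul hd (NormFrom.sq a e) : NormFrom a (d * e ^ 2))
  rw [vs, this]
  rfl

include hs hk in
lemma card_eq : Nat.card S.G = (sqG F).index := by
  rw [← ker_eq hk, Subgroup.index_ker, MonoidHom.range_eq_top.2 hs, Subgroup.card_top]

include hk h0 hq hn in
/-- rigid pairs from the basic part -/
lemma rigidPair (h2 : (2 : F) ≠ 0) (B : Subgroup S.G) (hB : ∀ a : S.G, a ∈ B ↔ ¬ Bi S a) :
    RigidPair (sqG F) (B.comap φ) := by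
  refine ⟨?_, ?_, ?_, ?_⟩
  · intro x
    rw [mem_sqG]
    exact ⟨x, (pow_two x).symm⟩
  · intro x hx
    rw [mem_sqG, ← hk] at hx
    rw [Subgroup.mem_comap, hx]
    exact B.one_mem
  · rw [Subgroup.mem_comap, hn, hB]
    exact fun hb => hb.2.1 rfl
  · intro x hx
    rw [Subgroup.mem_comap, hB, not_not] at hx
    obtain ⟨hx1, hx2, hx3, hx4⟩ := hx
    have hne : (1 : F) + x ≠ 0 := by
      intro e
      apply hx2
      rw [← hn]
      congr 1
      ext
      rw [Units.val_neg, Units.val_one]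
      linear_combination e
    have hnx : φ (-x) = S.neg * φ x := by rw [← hn, ← map_mul, neg_one_mul]
    have h1 : NormFrom (-x) (Units.mk0 _ hne) := ⟨1, 1, by
      rw [Units.val_mk0, Units.val_neg]; ring⟩
    rw [← q_zero h0 hq h2, hnx] at h1
    rcases hx4 _ h1 with h3 | h3
    · left
      refine ⟨Units.mk0 _ hne, ?_, rfl⟩
      rw [mem_sqG, ← hk]
      exact h3
    · right
      have h4 : φ (Units.mk0 _ hne) = φ x := by
        rw [h3, ← hnx, ← hn, ← map_mul, neg_one_mul, neg_neg]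
      obtain ⟨c, hc⟩ := eq_mul_sq hk h4.symm
      exact ⟨c ^ 2, mem_sqG.2 ⟨c, rfl⟩, by rw [← hc, Units.val_mk0]⟩

include hs hk h0 hq hn in
/-- fields whose basic part has index at least three carry a valuation -/
theorem exists_val (h2 : (2 : F) ≠ 0) [Finite S.G] (B : Subgroup S.G)
    (hB : ∀ a : S.G, a ∈ B ↔ ¬ Bi S a) (hidx : 2 * Nat.card B < Nat.card S.G) :
    ∃ O : ValuationSubring F, Sqr O ∧ Nat.card (O.unitGroup.map φ) ≤ 2 * Nat.card B ∧
      ∃ c : Fˣ, ∀ f : Fˣ, ¬ (((c * f ^ 2 : Fˣ) : F) ∈ O ∧ (((c * f ^ 2)⁻¹ : Fˣ) : F) ∈ O) := by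
  obtain ⟨z, H', hH', hR', hP'⟩ := Pool.Agent.Y925.ET.t_WA F _ _ (rigidPair hk hn h0 hq h2 B hB)
  obtain ⟨O, hO⟩ := Pool.Agent.Y447.ET.t_WB F _ _ hR' hP'
  have hT : ∀ x : Fˣ, x ∈ sqG F ↔ ∃ y : Fˣ, x = y * y := by
    intro x
    rw [mem_sqG]
    constructor
    · rintro ⟨y, rfl⟩; exact ⟨y, pow_two y⟩
    · rintro ⟨y, rfl⟩; exact ⟨y, (pow_two y).symm⟩
  obtain ⟨O', hOO', h2O', hO'⟩ := Pool.Agent.Y67.ET.t_COARSE F h2 _ _ hT hR'.le O hO
  have hcov : ∀ g : S.G, (∃ y : Fˣ, y ∈ H' ∧ φ y = g) → g ∈ (B : Set S.G) ∪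
      ((fun b => b * φ z⁻¹) '' (B : Set S.G)) := by
    rintro g ⟨y, hy, rfl⟩
    rcases (hH' y).1 hy with h3 | h3
    · exact Or.inl h3
    · right
      refine ⟨φ (y * z), h3, ?_⟩
      show φ (y * z) * φ z⁻¹ = φ y
      rw [← map_mul, mul_inv_cancel_right]
  have hcard : ((B : Set S.G) ∪ ((fun b => b * φ z⁻¹) '' (B : Set S.G))).ncard ≤
      2 * Nat.card B := by
    refine (Set.ncard_union_le _ _).trans ?_
    have h3 : ((fun b => b * φ z⁻¹) '' (B : Set S.G)).ncard ≤ (B : Set S.G).ncard :=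
      Set.ncard_image_le (Set.toFinite _)
    have h4 : (B : Set S.G).ncard = Nat.card B := rfl
    omega
  refine ⟨O', ⟨h2O', h2, ?_⟩, ?_, ?_⟩
  · intro x hx hx'
    obtain ⟨t, ht, hte⟩ := hO'.one x hx hx'
    obtain ⟨y, rfl⟩ := (hT t).1 ht
    exact ⟨y, by rw [← hte, Units.val_mul]⟩
  · have hsub : ((O'.unitGroup.map φ : Subgroup S.G) : Set S.G) ⊆
        (B : Set S.G) ∪ ((fun b => b * φ z⁻¹) '' (B : Set S.G)) := by
      rintro g ⟨u, hu, rfl⟩
      apply hcov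
      refine ⟨u, hO'.units u ?_ ?_, rfl⟩
      · exact (O'.valuation_le_one_iff _).1 ((ValuationSubring.mem_unitGroup_iff _ _).1 hu).le
      · refine (O'.valuation_le_one_iff _).1 ?_
        rw [Units.val_inv_eq_inv_val, map_inv₀, (ValuationSubring.mem_unitGroup_iff _ _).1 hu,
          inv_one]
    have h3 : Nat.card (O'.unitGroup.map φ) = ((O'.unitGroup.map φ : Subgroup S.G) :
      Set S.G).ncard := rfl
    rw [h3]
    exact (Set.ncard_le_ncard hsub (Set.toFinite _)).trans hcard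
  · by_contra hcon
    push Not at hcon
    have hall : ∀ c : Fˣ, c ∈ H' := by
      intro c
      obtain ⟨f, h3, h4⟩ := hcon c
      have h5 := hO'.units _ h3 h4
      have h6 : c = (c * f ^ 2) * (f * f)⁻¹ := by
        rw [pow_two, mul_inv_cancel_right]
      rw [h6]
      exact H'.mul_mem h5 (H'.inv_mem (hR'.le (hR'.sq f)))
    have huniv : (Set.univ : Set S.G) ⊆
        (B : Set S.G) ∪ ((fun b => b * φ z⁻¹) '' (B : Set S.G)) := by
      intro g _
      obtain ⟨y, rfl⟩ := hs g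
      exact hcov _ ⟨y, hall y, rfl⟩
    have h3 := (Set.ncard_le_ncard huniv (Set.toFinite _)).trans hcard
    rw [Set.ncard_univ] at h3
    omega

end

end Pool.Agent.Y920.ETC
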