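import Mathlib
import Pool.Agent.Y920.ETC.FieldH
import Pool.Agent.Y920.ETC.Chain

set_option autoImplicit false

/-! Fields with small norm groups: reduction to the residue field. -/

namespace Pool.Agent.Y920.ETC

open scoped Quaternion
open Pool.Agent.H315R3.ETC Pool.Agent.TH188.ET

lemma finSq_of_index {F : Type} [Field F] (h : (sqG F).index ≠ 0) : FinSq F := by
  have : Finite (Fˣ ⧸ sqG F) := by
    by_contra hc
    rw [not_finite_iff_infinite] at hc
    exact h Nat.card_eq_zero_of_infinite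
  exact this

lemma structure_iso {F : Type} [Field F] {S T : QData} (hS : IsStructureOf F S) (h : Iso S T)
    (hT : T.q 1 1 = T.zero) : IsStructureOf F T := by
  obtain ⟨φ, hs, hk, hn, h0, hq⟩ := hS
  obtain ⟨f, hf, hfq⟩ := h
  refine ⟨f.toMonoidHom.comp φ, f.surjective.comp hs, ?_, ?_, hT, ?_⟩
  · intro a
    rw [← hk]
    show f (φ a) = 1 ↔ _
    rw [MulEquiv.map_eq_one_iff]
  · show f (φ (-1)) = T.neg
    rw [hn, hf]
  · intro a b c d
    rw [← hq]
    exact (hfq _ _ _ _).symm

lemma iso_symm {A B : QData} (h1 : Iso A B) : Iso B A := by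
  obtain ⟨f, hf, hfq⟩ := h1
  refine ⟨f.symm, by rw [← hf, MulEquiv.symm_apply_apply], fun a b c d => ?_⟩
  rw [hfq, MulEquiv.apply_symm_apply, MulEquiv.apply_symm_apply, MulEquiv.apply_symm_apply,
    MulEquiv.apply_symm_apply]

/-- the data attached to a valuation ring -/
structure Red (F : Type) [Field F] (O : ValuationSubring F) (N : ℕ) : Prop where
  sqr : Sqr O
  two : (2 : IsLocalRing.ResidueField O) ≠ 0
  fin : (sqG (IsLocalRing.ResidueField O)).index ≠ 0
  small : ∀ a : (IsLocalRing.ResidueField O)ˣ, a ∉ sqG (IsLocalRing.ResidueField O) →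
    (sqG (IsLocalRing.ResidueField O)).relIndex (nG a) ≤ N

theorem reduce (hres : S_RES) {F : Type} [Field F] (h2 : (2 : F) ≠ 0) {N : ℕ} (hN1 : 1 ≤ N)
    (hfin : (sqG F).index ≠ 0)
    (hsmall : ∀ a : Fˣ, a ∉ sqG F → (sqG F).relIndex (nG a) ≤ N)
    (hlarge : 8 * N ^ 4 < (sqG F).index) :
    ∃ O : ValuationSubring F, Red F O N ∧
      (sqG (IsLocalRing.ResidueField O)).index ≤ 8 * N ^ 4 ∧
      ∃ (k : ℕ) (T : QData), 1 ≤ k ∧ 2 ^ k * (sqG (IsLocalRing.ResidueField O)).index =
        (sqG F).index ∧ IsStructureOf (IsLocalRing.ResidueField O) T ∧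
        IsStructureOf F (ext^[k] T) := by
  obtain ⟨S, hS, hSf, hSq⟩ := exists_structure h2 (finSq_of_index hfin)
  have hS' := hS
  obtain ⟨φ, hs, hk, hn, h0, hq⟩ := hS
  obtain ⟨B, hB⟩ := Pool.Agent.Y67.ET.t_BASIC S hSq
  have hcard : Nat.card S.G = (sqG F).index := card_eq hs hk
  have hvs : ∀ g : S.G, g ≠ 1 → vs S g ≤ N := by
    intro g hg
    obtain ⟨a, rfl⟩ := hs g
    rw [vs_eq hs hk h0 hq h2]
    refine hsmall a fun ha => hg ?_
    rw [hk]
    exact mem_sqG.1 ha
  have hBc := card_basic2 hSq Pool.Agent.Y43.ET.t_GL B hB hN1 hvs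
  obtain ⟨O, hO, hOc, hc⟩ := exists_val hs hk hn h0 hq h2 B hB (by omega)
  obtain ⟨h2k, hstr, hbi⟩ := hres F O hO S φ hs hk hn h0 hq
  have hneg : S.neg ∈ O.unitGroup.map φ := by
    by_contra hc'
    exact (hbi _ hc').2.1 rfl
  have hstr' := hstr hneg
  have hfK : Finite (restrN S (O.unitGroup.map φ) hneg).G :=
    inferInstanceAs (Finite (O.unitGroup.map φ))
  obtain ⟨k, hk1, hk2⟩ := chain _ S hSq hSf le_rfl (O.unitGroup.map φ) hneg hbi
  have hqK := (isQuat_restrN hSq (O.unitGroup.map φ) hneg hbi).1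
  obtain ⟨ψ, hs', hk', hn', h0', hq'⟩ := hstr'
  have hcκ : Nat.card (O.unitGroup.map φ) = (sqG (IsLocalRing.ResidueField O)).index :=
    card_eq hs' hk'
  have hpos : 0 < Nat.card (O.unitGroup.map φ) := Nat.card_pos
  refine ⟨O, ⟨hO, h2k, by omega, ?_⟩, by omega, k, restrN S (O.unitGroup.map φ) hneg, ?_, ?_,
    hstr hneg, ?_⟩
  · intro a ha
    rw [← vs_eq hs' hk' h0' hq' h2k, vs_restrN hSq (O.unitGroup.map φ) hneg hbi]
    · refine hvs _ fun e => ha ?_
      rw [mem_sqG, ← hk']
      exact Subtype.ext e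
    · intro e
      apply ha
      rw [mem_sqG, ← hk']
      exact e
  · by_contra hk0
    have hk0' : k = 0 := by omega
    rw [hk0', pow_zero, one_mul] at hk1
    omega
  · rw [← hcκ, hk1, hcard]
  · refine structure_iso hS' (iso_symm hk2) ?_
    have h1q : (restrN S (O.unitGroup.map φ) hneg).q 1 1 =
        (restrN S (O.unitGroup.map φ) hneg).zero := h0
    have : ∀ (k : ℕ) (T : QData), T.q 1 1 = T.zero → (ext^[k] T).q 1 1 = (ext^[k] T).zero := by
      intro k T hT
      induction k with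
      | zero => exact hT
      | succ k ih =>
        rw [Function.iterate_succ_apply']
        show (((ext^[k] T).q 1 1, pw (pw (ext^[k] T).neg 1) 1 * pw 1 1 * pw 1 1) :
          (ext^[k] T).Q × (ext^[k] T).G) = ((ext^[k] T).zero, 1)
        rw [ih]
        simp [pw]
    exact this k _ h1q

/-- elementary type passes from the residue field -/
theorem elem_iter {T : QData} (h : Elem T) : ∀ k : ℕ, Elem (ext^[k] T) := by
  intro k
  induction k with
  | zero => exact h
  | succ k ih =>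
    rw [Function.iterate_succ_apply']
    exact Elem.ext _ ih

end Pool.Agent.Y920.ETC
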